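import Pool.Agent.Lib.MP_7cdc3e_gt.Q.Cvh

/-!
# MP_7cdc3e_gt, C32, T4b: the cone of nonnegative functions and its dual

`ev : K → (M → ℝ)` is a finite dimensional space of continuous functions on the compact space `M` such that
the open half-spaces `{ev k > 0}` are preconnected; `h` is an order unit.  `Ln` is the cone of the nonnegative
functions, `Bs` the base `{e ≥ 0 on Ln, e h = 1}` of the dual cone, `E1` the closure of the evaluations
`ev_y / ev h y`.  Text: `C/T4b.md`, sections 0, 1, 4, 5.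
-/

set_option autoImplicit false

open Set

namespace C32

namespace T4b

variable {M : Type} [TopologicalSpace M] {K : Type} [NormedAddCommGroup K] [NormedSpace ℝ K]

/-- a space of functions with an order unit -/
structure KS (ev : K →ₗ[ℝ] (M → ℝ)) (h : K) : Prop where
  cont : ∀ k, Continuous (ev k)
  conn : ∀ k, IsPreconnected {y | 0 < ev k y}
  nn : ∀ y, 0 ≤ ev h y
  pos : ∃ y, 0 < ev h y
  unit : ∀ k, ∃ s : ℝ, ∀ y, ev k y ≤ s * ev h y

/-- the nonnegative functions -/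
def Ln (ev : K →ₗ[ℝ] (M → ℝ)) : Set K := {l | ∀ y, 0 ≤ ev l y}

/-- the base of the dual cone -/
def Bs (ev : K →ₗ[ℝ] (M → ℝ)) (h : K) : Set (K →L[ℝ] ℝ) := {e | (∀ l ∈ Ln ev, 0 ≤ e l) ∧ e h = 1}

/-- the normalized evaluations -/
def E0 (ev : K →ₗ[ℝ] (M → ℝ)) (h : K) : Set (K →L[ℝ] ℝ) :=
  {e | ∃ y, 0 < ev h y ∧ ∀ k, e k = ev k y / ev h y}

/-- the closure of the normalized evaluations -/
def E1 (ev : K →ₗ[ℝ] (M → ℝ)) (h : K) : Set (K →L[ℝ] ℝ) := closure (E0 ev h)

variable {ev : K →ₗ[ℝ] (M → ℝ)} {h : K}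

theorem KS.bd (H : KS ev h) (k : K) : ∃ s : ℝ, 0 ≤ s ∧ ∀ y, |ev k y| ≤ s * ev h y := by
  obtain ⟨s, hs⟩ := H.unit k
  obtain ⟨t, ht⟩ := H.unit (-k)
  refine ⟨max 0 (max s t), le_max_left _ _, fun y => abs_le.mpr ⟨?_, ?_⟩⟩
  · have h1 := ht y
    rw [map_neg, Pi.neg_apply] at h1
    have h2 : t * ev h y ≤ max 0 (max s t) * ev h y :=
      mul_le_mul_of_nonneg_right ((le_max_right s t).trans (le_max_right _ _)) (H.nn y)
    linarith
  · exact (hs y).trans (mul_le_mul_of_nonneg_right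
      ((le_max_left s t).trans (le_max_right _ _)) (H.nn y))

theorem KS.zero (H : KS ev h) (k : K) {y : M} (hy : ev h y = 0) : ev k y = 0 := by
  obtain ⟨s, _, hs⟩ := H.bd k
  have h1 := hs y
  rw [hy, mul_zero] at h1
  exact abs_eq_zero.mp (le_antisymm h1 (abs_nonneg _))

theorem KS.posh (H : KS ev h) {k : K} {y : M} (hy : ev k y ≠ 0) : 0 < ev h y :=
  lt_of_le_of_ne (H.nn y) fun h1 => hy (H.zero k h1.symm)

theorem smul_mem_Ln {l : K} (hl : l ∈ Ln ev) {t : ℝ} (ht : 0 ≤ t) : t • l ∈ Ln ev := fun y => by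
  rw [map_smul, Pi.smul_apply, smul_eq_mul]
  exact mul_nonneg ht (hl y)

theorem add_mem_Ln {l l' : K} (hl : l ∈ Ln ev) (hl' : l' ∈ Ln ev) : l + l' ∈ Ln ev := fun y => by
  rw [map_add, Pi.add_apply]
  exact add_nonneg (hl y) (hl' y)

theorem E0_sub (H : KS ev h) : E0 ev h ⊆ Bs ev h := by
  rintro e ⟨y, hy, he⟩
  refine ⟨fun l hl => ?_, ?_⟩
  · rw [he]
    exact div_nonneg (hl y) hy.le
  · rw [he, div_self hy.ne']

theorem Bs_convex : Convex ℝ (Bs ev h) := by
  rintro e ⟨he, he1⟩ e' ⟨he', he1'⟩ a b ha hb hab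
  refine ⟨fun l hl => ?_, ?_⟩
  · change 0 ≤ a * e l + b * e' l
    exact add_nonneg (mul_nonneg ha (he l hl)) (mul_nonneg hb (he' l hl))
  · change a * e h + b * e' h = 1
    rw [he1, he1', mul_one, mul_one, hab]

theorem continuous_eval (k : K) : Continuous (fun e : K →L[ℝ] ℝ => e k) :=
  (ContinuousLinearMap.apply ℝ ℝ k).continuous

theorem Bs_closed : IsClosed (Bs ev h) := by
  have h1 : Bs ev h = (⋂ l ∈ Ln ev, {e : K →L[ℝ] ℝ | 0 ≤ e l}) ∩ {e | e h = 1} := by
    ext e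
    simp [Bs]
  rw [h1]
  refine (isClosed_biInter fun l _ => isClosed_le continuous_const (continuous_eval l)).inter
    (isClosed_eq (continuous_eval h) continuous_const)

theorem E1_sub (H : KS ev h) : E1 ev h ⊆ Bs ev h := closure_minimal (E0_sub H) Bs_closed

theorem Bs_bd (H : KS ev h) (k : K) : ∃ s : ℝ, ∀ e ∈ Bs ev h, |e k| ≤ s := by
  obtain ⟨s, _, hs⟩ := H.bd k
  refine ⟨s, fun e he => abs_le.mpr ⟨?_, ?_⟩⟩
  · have h1 : s • h + k ∈ Ln ev := fun y => by
      rw [map_add, map_smul, Pi.add_apply, Pi.smul_apply, smul_eq_mul]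
      linarith [(abs_le.mp (hs y)).1]
    have h2 := he.1 _ h1
    rw [map_add, map_smul, he.2, smul_eq_mul] at h2
    linarith
  · have h1 : s • h - k ∈ Ln ev := fun y => by
      rw [map_sub, map_smul, Pi.sub_apply, Pi.smul_apply, smul_eq_mul]
      linarith [(abs_le.mp (hs y)).2]
    have h2 := he.1 _ h1
    rw [map_sub, map_smul, he.2, smul_eq_mul] at h2
    linarith

variable [FiniteDimensional ℝ K]

theorem Bs_compact (H : KS ev h) : IsCompact (Bs ev h) := by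
  have : CompleteSpace K := FiniteDimensional.complete ℝ K
  obtain ⟨C, hC⟩ := banach_steinhaus (g := fun e : Bs ev h => (e : K →L[ℝ] ℝ)) fun k => by
    obtain ⟨s, hs⟩ := Bs_bd H k
    exact ⟨s, fun e => by simpa using hs e.1 e.2⟩
  have : ProperSpace (K →L[ℝ] ℝ) := FiniteDimensional.proper_real _
  refine (isCompact_closedBall (0 : K →L[ℝ] ℝ) C).of_isClosed_subset Bs_closed fun e he => ?_
  rw [mem_closedBall_zero_iff]
  exact hC ⟨e, he⟩

theorem E1_compact (H : KS ev h) : IsCompact (E1 ev h) :=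
  (Bs_compact H).of_isClosed_subset isClosed_closure (E1_sub H)

/-- the convex hull of a compact set is compact -/
theorem compact_hull {E : Type} [NormedAddCommGroup E] [NormedSpace ℝ E] [FiniteDimensional ℝ E]
    {s : Set E} (hs : IsCompact s) : IsCompact (convexHull ℝ s) := by
  let φ : E ≃L[ℝ] EuclideanSpace ℝ (Fin (Module.finrank ℝ E)) := toEuclidean
  have h1 : IsCompact (convexHull ℝ (φ '' s)) := TightRP.Q.qCvh _ _ (hs.image φ.continuous)
  have h2 : convexHull ℝ (φ '' s) = φ '' convexHull ℝ s :=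
    (LinearMap.image_convexHull (φ.toLinearEquiv.toLinearMap) s).symm
  rw [h2] at h1
  have h3 := h1.image φ.symm.continuous
  rwa [← Set.image_comp, show (φ.symm ∘ φ : E → E) = id from by ext x; simp, Set.image_id] at h3

/-- linear functionals on the dual space are evaluations -/
theorem dual_eval (f : (K →L[ℝ] ℝ) →L[ℝ] ℝ) : ∃ k : K, ∀ e : K →L[ℝ] ℝ, f e = e k := by
  let g : Module.Dual ℝ (Module.Dual ℝ K) :=
    (f : (K →L[ℝ] ℝ) →ₗ[ℝ] ℝ).comp (LinearMap.toContinuousLinearMap : (K →ₗ[ℝ] ℝ) ≃ₗ[ℝ] (K →L[ℝ] ℝ)).toLinearMap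
  refine ⟨(Module.evalEquiv ℝ K).symm g, fun e => ?_⟩
  have h1 : Module.evalEquiv ℝ K ((Module.evalEquiv ℝ K).symm g) = g := LinearEquiv.apply_symm_apply _ _
  have h2 := congrArg (fun φ : Module.Dual ℝ (Module.Dual ℝ K) => φ (e : K →ₗ[ℝ] ℝ)) h1
  simp only [Module.evalEquiv_apply, Module.Dual.eval_apply] at h2
  have h3 : g (e : K →ₗ[ℝ] ℝ) = f e := by
    change f (LinearMap.toContinuousLinearMap (e : K →ₗ[ℝ] ℝ)) = f e
    congr 1
  rw [← h3, ← h2]
  rfl

theorem Ln_of_E1 (H : KS ev h) {k : K} (hk : ∀ e ∈ E1 ev h, 0 ≤ e k) : k ∈ Ln ev := by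
  intro y
  rcases (H.nn y).lt_or_eq with hy | hy
  · obtain ⟨s, _, hs⟩ := H.bd k
    let e : K →ₗ[ℝ] ℝ := (ev h y)⁻¹ • ((LinearMap.proj y).comp ev)
    have he : ∀ k, LinearMap.toContinuousLinearMap e k = ev k y / ev h y := fun k => by
      change (ev h y)⁻¹ * ev k y = _
      rw [div_eq_inv_mul]
    have h1 := hk _ (subset_closure ⟨y, hy, he⟩)
    rw [he] at h1
    have := mul_nonneg h1 hy.le
    rwa [div_mul_cancel₀ _ hy.ne'] at this
  · rw [H.zero k hy.symm]

theorem Bs_eq_hull (H : KS ev h) : Bs ev h = convexHull ℝ (E1 ev h) := by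
  have : ProperSpace (K →L[ℝ] ℝ) := FiniteDimensional.proper_real _
  refine Subset.antisymm (fun e he => ?_) (convexHull_min (E1_sub H) Bs_convex)
  by_contra hn
  have hc : IsCompact (convexHull ℝ (E1 ev h)) := compact_hull (E1_compact H)
  obtain ⟨f, u, h1, h2⟩ := geometric_hahn_banach_point_closed (convex_convexHull ℝ _) hc.isClosed hn
  obtain ⟨k, hk⟩ := dual_eval f
  have h3 : k - u • h ∈ Ln ev := Ln_of_E1 H fun e' he' => by
    have h4 := h2 e' (subset_convexHull ℝ _ he')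
    rw [hk] at h4
    rw [map_sub, map_smul, (E1_sub H he').2, smul_eq_mul, mul_one]
    linarith
  have h5 := he.1 _ h3
  rw [map_sub, map_smul, he.2, smul_eq_mul, mul_one] at h5
  rw [hk] at h1
  linarith

theorem extreme_mem (H : KS ev h) {e : K →L[ℝ] ℝ} (he : e ∈ (Bs ev h).extremePoints ℝ) :
    e ∈ E1 ev h := by
  rw [Bs_eq_hull H] at he
  exact extremePoints_convexHull_subset he

/-- CAP -/
theorem cap (H : KS ev h) {D : Set (K →L[ℝ] ℝ)} (hD : IsExtreme ℝ (Bs ev h) D) (hc : Convex ℝ D)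
    (hcl : IsClosed D) {O : Set (K →L[ℝ] ℝ)} (hO : IsOpen O) (hDO : D ⊆ O) :
    ∃ k : K, (∀ e ∈ D, e k < 0) ∧ ∀ e ∈ Bs ev h, e ∉ O → 0 < e k := by
  have : ProperSpace (K →L[ℝ] ℝ) := FiniteDimensional.proper_real _
  let A : Set (K →L[ℝ] ℝ) := Bs ev h \ O
  have hA : IsCompact A := (Bs_compact H).diff hO
  have hcA : IsCompact (convexHull ℝ A) := compact_hull hA
  have hd : Disjoint (convexHull ℝ A) D := by
    rw [Set.disjoint_left]
    have hsub : convexHull ℝ A ⊆ {z | z ∈ Bs ev h ∧ z ∉ D} := by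
      refine convexHull_min (fun z hz => ⟨hz.1, fun hzD => hz.2 (hDO hzD)⟩) ?_
      rw [convex_iff_openSegment_subset]
      rintro x ⟨hx, hxD⟩ y ⟨hy, _⟩ z hz
      exact ⟨Bs_convex.openSegment_subset hx hy hz,
        fun hzD => hxD (hD.left_mem_of_mem_openSegment hx hy hzD hz)⟩
    exact fun z hz => (hsub hz).2
  obtain ⟨f, u, v, h1, h2, h3⟩ := geometric_hahn_banach_compact_closed (convex_convexHull ℝ A) hcA
    hc hcl hd
  obtain ⟨k, hk⟩ := dual_eval f
  let c : ℝ := (u + v) / 2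
  refine ⟨c • h - k, fun e he => ?_, fun e he heO => ?_⟩
  · have h4 := h3 e he
    rw [hk] at h4
    rw [map_sub, map_smul, (hD.subset he).2, smul_eq_mul, mul_one]
    change (u + v) / 2 - e k < 0
    linarith
  · have h4 := h1 e (subset_convexHull ℝ _ ⟨he, heO⟩)
    rw [hk] at h4
    rw [map_sub, map_smul, he.2, smul_eq_mul, mul_one]
    change 0 < (u + v) / 2 - e k
    linarith

/-- the normalized evaluation at a point -/
theorem exists_beta (H : KS ev h) {y : M} (hy : 0 < ev h y) :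
    ∃ e ∈ E1 ev h, ∀ k, e k = ev k y / ev h y := by
  let e : K →ₗ[ℝ] ℝ := (ev h y)⁻¹ • ((LinearMap.proj y).comp ev)
  have he : ∀ k, LinearMap.toContinuousLinearMap e k = ev k y / ev h y := fun k => by
    change (ev h y)⁻¹ * ev k y = _
    rw [div_eq_inv_mul]
  exact ⟨_, subset_closure ⟨y, hy, he⟩, he⟩

/-- near every point of `E1` there are evaluations -/
theorem exists_near (H : KS ev h) {e : K →L[ℝ] ℝ} (he : e ∈ E1 ev h) {O : Set (K →L[ℝ] ℝ)}
    (hO : IsOpen O) (heO : e ∈ O) : ∃ y, 0 < ev h y ∧ ∃ e' ∈ O, e' ∈ E1 ev h ∧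
      ∀ k, e' k = ev k y / ev h y := by
  obtain ⟨e', he', y, hy, h1⟩ := mem_closure_iff.mp he O hO heO
  exact ⟨y, hy, e', he', subset_closure ⟨y, hy, h1⟩, h1⟩

/-- (a10) -/
theorem a10 (H : KS ev h) {g m : K} (hg : g ∈ Ln ev) (hg0 : ∃ y, ev g y ≠ 0)
    (hm : ∀ e ∈ E1 ev h, 0 < e g → 0 ≤ e m) : m ∈ Ln ev := by
  by_contra hn
  -- an extreme point with negative value
  have hB : ∃ e ∈ (Bs ev h).extremePoints ℝ, e m < 0 := by
    by_contra hne
    push Not at hne
    have hcl : closure (convexHull ℝ ((Bs ev h).extremePoints ℝ)) = Bs ev h :=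
      closure_convexHull_extremePoints (Bs_compact H) Bs_convex
    have hsub : Bs ev h ⊆ {e | 0 ≤ e m} := by
      rw [← hcl]
      refine closure_minimal (convexHull_min hne ?_) (isClosed_le continuous_const (continuous_eval m))
      exact convex_halfSpace_ge (f := fun e : K →L[ℝ] ℝ => e m)
        ⟨fun _ _ => rfl, fun _ _ => rfl⟩ 0
    exact hn (Ln_of_E1 H fun e he => hsub (E1_sub H he))
  obtain ⟨ψ, hψ, hψm⟩ := hB
  have hO : IsOpen {e : K →L[ℝ] ℝ | e m < 0} := isOpen_lt (continuous_eval m) continuous_const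
  obtain ⟨k, hk1, hk2⟩ := cap H (D := {ψ}) (isExtreme_singleton.mpr hψ) (convex_singleton ψ)
    isClosed_singleton hO (by rintro _ rfl; exact hψm)
  have h1 : ∀ y, ev k y < 0 → ev g y = 0 := by
    intro y hy
    have hy0 : 0 < ev h y := H.posh hy.ne
    obtain ⟨e, he, he1⟩ := exists_beta H hy0
    by_contra hgy
    have h3 : 0 < ev g y := lt_of_le_of_ne (hg y) fun h => hgy h.symm
    have h4 : 0 ≤ e m := hm e he (by rw [he1]; exact div_pos h3 hy0)
    have h5 : e k < 0 := by rw [he1]; exact div_neg_of_neg_of_pos hy hy0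
    by_cases h6 : e ∈ {e : K →L[ℝ] ℝ | e m < 0}
    · exact absurd h4 (not_le.mpr h6)
    · exact absurd (hk2 e (E1_sub H he) h6) (not_lt.mpr h5.le)
  have hkn : ∃ y, ev k y < 0 := by
    by_contra hne
    push Not at hne
    have := hψ.1.1 k hne
    exact absurd this (not_le.mpr (hk1 ψ rfl))
  obtain ⟨y0, hy0⟩ := hkn
  obtain ⟨y1, hy1⟩ := hg0
  have hy1' : 0 < ev g y1 := lt_of_le_of_ne (hg y1) fun h => hy1 h.symm
  obtain ⟨s, hs⟩ : ∃ s : ℝ, 0 ≤ s ∧ ev k y1 < s * ev g y1 := by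
    refine ⟨|ev k y1| / ev g y1 + 1, by positivity, ?_⟩
    rw [add_mul, div_mul_cancel₀ _ hy1'.ne', one_mul]
    linarith [le_abs_self (ev k y1)]
  have hconn := H.conn (s • g - k)
  have hval : ∀ y, ev (s • g - k) y = s * ev g y - ev k y := fun y => by
    rw [map_sub, map_smul]
    rfl
  have hU : IsOpen {y | ev k y < 0} := isOpen_lt (H.cont k) continuous_const
  have hV : IsOpen {y | 0 < ev g y} := isOpen_lt continuous_const (H.cont g)
  obtain ⟨y, _, h7, h8⟩ := hconn _ _ hU hV (fun y hy => by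
    by_cases h9 : ev k y < 0
    · exact Or.inl h9
    · right
      have h10 : 0 < ev (s • g - k) y := hy
      rw [hval] at h10
      have h11 : 0 < s * ev g y := by linarith [not_lt.mp h9]
      exact pos_of_mul_pos_right h11 hs.1) ⟨y0, by
        change 0 < ev (s • g - k) y0
        rw [hval, h1 y0 hy0, mul_zero, zero_sub]
        linarith, hy0⟩ ⟨y1, by
        change 0 < ev (s • g - k) y1
        rw [hval]
        linarith [hs.2], hy1'⟩
  exact absurd (h1 y h7) (ne_of_gt h8)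

/-- points of an extreme segment are limits of evaluations -/
theorem a11_seg (H : KS ev h) {ψ₁ ψ₂ ψ₀ : K →L[ℝ] ℝ} (h1 : ψ₁ ∈ (Bs ev h).extremePoints ℝ)
    (h2 : ψ₂ ∈ (Bs ev h).extremePoints ℝ) (hne : ψ₁ ≠ ψ₂)
    (hs : IsExtreme ℝ (Bs ev h) (segment ℝ ψ₁ ψ₂)) (h0 : ψ₀ ∈ openSegment ℝ ψ₁ ψ₂) :
    ψ₀ ∈ E1 ev h := by
  by_contra hn
  obtain ⟨a, b, ha, hb, hab, rfl⟩ := h0
  -- a functional separating the ends, zero at `ψ₀`
  obtain ⟨m₀, hm₀⟩ : ∃ m : K, ψ₁ m ≠ ψ₂ m := by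
    by_contra hc
    push Not at hc
    exact hne (ContinuousLinearMap.ext hc)
  have hφ : ∀ m : K, (a • ψ₁ + b • ψ₂) m = a * ψ₁ m + b * ψ₂ m := fun m => rfl
  obtain ⟨m, hm0, hm1, hm2⟩ : ∃ m : K, (a • ψ₁ + b • ψ₂) m = 0 ∧ 0 < ψ₁ m ∧ ψ₂ m < 0 := by
    have key : ∀ m₁ : K, ψ₂ m₁ < ψ₁ m₁ →
        ∃ m : K, (a • ψ₁ + b • ψ₂) m = 0 ∧ 0 < ψ₁ m ∧ ψ₂ m < 0 := by
      intro m₁ hm₁
      refine ⟨m₁ - (a * ψ₁ m₁ + b * ψ₂ m₁) • h, ?_, ?_, ?_⟩
      · rw [map_sub, map_smul, hφ, hφ, h1.1.2, h2.1.2, smul_eq_mul]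
        have : a * 1 + b * 1 = 1 := by rw [mul_one, mul_one, hab]
        rw [this, mul_one, sub_self]
      · rw [map_sub, map_smul, h1.1.2, smul_eq_mul, mul_one]
        have ha' : a = 1 - b := by linarith
        have h4 : ψ₁ m₁ - (a * ψ₁ m₁ + b * ψ₂ m₁) = b * (ψ₁ m₁ - ψ₂ m₁) := by rw [ha']; ring
        rw [h4]
        exact mul_pos hb (by linarith)
      · rw [map_sub, map_smul, h2.1.2, smul_eq_mul, mul_one]
        have hb' : b = 1 - a := by linarith
        have h4 : ψ₂ m₁ - (a * ψ₁ m₁ + b * ψ₂ m₁) = -(a * (ψ₁ m₁ - ψ₂ m₁)) := by rw [hb']; ring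
        rw [h4]
        exact neg_neg_of_pos (mul_pos ha (by linarith))
    rcases lt_or_gt_of_ne hm₀ with h3 | h3
    · exact key (-m₀) (by rw [map_neg, map_neg]; linarith)
    · exact key m₀ h3
  -- the compact set of the limits of evaluations with `m = 0`
  let T : Set (K →L[ℝ] ℝ) := E1 ev h ∩ {e | e m = 0}
  have hT : IsClosed T := isClosed_closure.inter (isClosed_eq (continuous_eval m) continuous_const)
  have hdis : segment ℝ ψ₁ ψ₂ ⊆ Tᶜ := by
    rintro _ ⟨c, d, hc, hd, hcd, rfl⟩ ⟨hE, hm⟩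
    have hm' : c * ψ₁ m + d * ψ₂ m = 0 := hm
    have hm'' : a * ψ₁ m + b * ψ₂ m = 0 := hm0
    have hca : c = a := by
      have hd' : d = 1 - c := by linarith
      have hb' : b = 1 - a := by linarith
      rw [hd'] at hm'
      rw [hb'] at hm''
      have : (c - a) * (ψ₁ m - ψ₂ m) = 0 := by ring_nf; ring_nf at hm' hm''; linarith
      rcases mul_eq_zero.mp this with h5 | h5
      · linarith
      · linarith
    have hdb : d = b := by linarith
    rw [hca, hdb] at hE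
    exact hn hE
  obtain ⟨k, hk1, hk2⟩ := cap H hs (convex_segment ψ₁ ψ₂) (by
    rw [segment_eq_image_lineMap]
    exact (isCompact_Icc.image (by fun_prop)).isClosed) hT.isOpen_compl hdis
  have hconn := H.conn (-k)
  have hUo : IsOpen {y | 0 < ev m y} := isOpen_lt continuous_const (H.cont m)
  have hVo : IsOpen {y | ev m y < 0} := isOpen_lt (H.cont m) continuous_const
  have hmz : ∀ y, 0 < ev (-k) y → ev m y ≠ 0 := by
    intro y hy hmy
    rw [map_neg, Pi.neg_apply] at hy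
    have hky : ev k y < 0 := by linarith
    have hy0 : 0 < ev h y := H.posh hky.ne
    obtain ⟨e, he, he1⟩ := exists_beta H hy0
    have h5 : e ∈ T := ⟨he, by change e m = 0; rw [he1, hmy, zero_div]⟩
    have h6 := hk2 e (E1_sub H he) (fun h => h h5)
    rw [he1] at h6
    exact absurd (div_neg_of_neg_of_pos hky hy0) (not_lt.mpr h6.le)
  have hnear : ∀ (ψ : K →L[ℝ] ℝ), ψ ∈ E1 ev h → ψ k < 0 → ∀ c : ℝ, 0 < c * ψ m →
      ∃ y, 0 < ev (-k) y ∧ 0 < c * ev m y := by
    intro ψ hψ hψk c hc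
    obtain ⟨y, hy, e', he', _, he1⟩ := exists_near H hψ (O := {e | e k < 0} ∩ {e | 0 < c * e m})
      ((isOpen_lt (continuous_eval k) continuous_const).inter
        (isOpen_lt continuous_const (continuous_const.mul (continuous_eval m)))) ⟨hψk, hc⟩
    refine ⟨y, ?_, ?_⟩
    · have h7 : e' k < 0 := he'.1
      rw [he1] at h7
      rw [map_neg, Pi.neg_apply]
      have := (div_neg_iff.mp h7)
      rcases this with h8 | h8
      · exact absurd h8.2 (not_lt.mpr hy.le)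
      · linarith [h8.1]
    · have h7 : 0 < c * e' m := he'.2
      rw [he1, ← mul_div_assoc] at h7
      exact (div_pos_iff_of_pos_right hy).mp h7
  obtain ⟨y1, hy1, hy1'⟩ := hnear ψ₁ (extreme_mem H h1) (hk1 ψ₁ (left_mem_segment ℝ _ _)) 1
    (by rwa [one_mul])
  obtain ⟨y2, hy2, hy2'⟩ := hnear ψ₂ (extreme_mem H h2) (hk1 ψ₂ (right_mem_segment ℝ _ _)) (-1)
    (by linarith)
  obtain ⟨y, hy, h7, h8⟩ := hconn _ _ hUo hVo (fun y hy => by
    rcases lt_or_gt_of_ne (hmz y hy) with h9 | h9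
    · exact Or.inr h9
    · exact Or.inl h9) ⟨y1, hy1, by rwa [one_mul] at hy1'⟩ ⟨y2, hy2, by
      change ev m y2 < 0
      linarith⟩
  have h9 : 0 < ev m y := h7
  have h10 : ev m y < 0 := h8
  linarith

end T4b

end C32
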