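import Pool.Agent.Lib.MP_7cdc3e_gt.T0.Exp
import Pool.Agent.Lib.MP_7cdc3e_gt.C.T4b.Geo
import Pool.Agent.Lib.AS.Tot
import Pool.Agent.Lib.AS.AllM

/-!
# MP_7cdc3e_gt, C32, T4b: (a2), (a7), (a11), caps and filling, statements

`Geo` contains the cone `Ln ev` of the nonnegative functions of a space `ev : K → (M → ℝ)` with order unit `h`
(`KS ev h`), the base `Bs ev h` of the dual cone in `K →L[ℝ] ℝ`, the closure `E1 ev h` of the normalized
evaluations.  A closed face of the dual cone is represented by its base `Y ⊆ Bs ev h` (`Fa ev h Y`).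
Every `S_…` is a statement; the file `C/T4b/<Name>.lean` proves `theorem t<Name> : S_<Name>` with the used
statements as hypotheses.  `RInt` is the algebraic relative interior (`AS/Bd`), `Tot` see `AS/Tot`,
`W1a`, `W1b`, `W3a` see `AS/SpecLG`, `SpecLG2`; `T0.X…` see `T0/Exp`; `okM…`, `okN…`, `okK…` see `AS/AllM`.
-/

set_option autoImplicit false

open Set AS TightRP TightRP.C3

namespace C32

namespace T4b

/-! ## Convex geometry -/

section convex

variable {M : Type} [TopologicalSpace M] {K : Type} [NormedAddCommGroup K] [NormedSpace ℝ K]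

/-- `Y` is a nonempty closed face of the base -/
structure Fa (ev : K →ₗ[ℝ] (M → ℝ)) (h : K) (Y : Set (K →L[ℝ] ℝ)) : Prop where
  ext : IsExtreme ℝ (Bs ev h) Y
  cvx : Convex ℝ Y
  cl : IsClosed Y
  ne : Y.Nonempty

end convex

/-- **RI** (50 lines).  Relative interior points: existence, directions, density.
Proof.  (1) `P33.exists_center` gives `p ∈ Q` with `{v : vectorSpan ℝ Q | p + v ∈ Q} ∈ 𝓝 0`; for `y ∈ Q` the vectors `-t (y - p)`, `t > 0` small, are in this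
neighbourhood (`vsub_mem_vectorSpan`).  (2) `{v ∈ E | ∃ t > 0, p + t v ∈ Q}` =: `C` is a cone: closed under multiplication with positive numbers, and under sums (`p + t v`, `p + t' v' ∈ Q`: with `s = min t t'` also
`p + s v, p + s v' ∈ Q` by convexity (`p ∈ Q`), so `p + (s/2) (v + v') ∈ Q`), contains `0`; for `y ∈ Q` it contains `y - p` (`t = 1`) and `-(y - p)` (`p ∈ RInt Q`).  So it contains the span of the vectors `y - p`, `y ∈ Q` (`vectorSpan_eq_span_vsub_set_right`,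
`Submodule.span_induction`; for `smul` with a negative scalar prove the claim for `v` and `-v` simultaneously).  (3) for `y ∈ Q` and `0 < t ≤ 1` the point `x = (1 - t) y + t p` is in `RInt Q`: for `y' ∈ Q` by (2) there is `s > 0` with
`p + s (x - y') ∈ Q` (`x - y'` is in the vector span), and `x + t s (x - y')·1 = (1 - t) y + t (p + s (x - y')) ∈ Q`.  `x → y` for `t → 0`. -/
def S_RI : Prop := ∀ (E : Type) [NormedAddCommGroup E] [NormedSpace ℝ E] [FiniteDimensional ℝ E]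
  (Q : Set E), Convex ℝ Q →
  (Q.Nonempty → (RInt Q).Nonempty) ∧
  (∀ p ∈ RInt Q, ∀ v ∈ vectorSpan ℝ Q, ∃ t : ℝ, 0 < t ∧ p + t • v ∈ Q) ∧
  (Q ⊆ closure (RInt Q))

/-- **Cap** (90 lines).  Caps, one-sided version.
Proof.  As `cap` in `Geo`.  In `(K →L[ℝ] ℝ) × ℝ` let `A = convexHull ℝ ((Bs ×ˢ {0}) ∪ (T ×ˢ {1}))`: compact (`compact_hull`, `Bs_compact`).  `A` is contained in the convex set
`G = {(x, t) | x ∈ Bs ∧ (x ∈ Y → t ≤ 0)}` (convex: if a combination `a x + b x'` with `a, b > 0` is in `Y` then `x, x' ∈ Y` as `Y` is extreme; `T ∩ Y = ∅`), so it is disjoint from the convex closed set `Y ×ˢ {ε}`.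
`geometric_hahn_banach_compact_closed`: `f`, `u < v`, `f < u` on `A`, `v < f` on `Y ×ˢ {ε}`.  `f (x, t) = x k + β t` for some `k : K` (`dual_eval` for `x ↦ f (x, 0)`; `β = f (0, 1)`).  For `y ∈ Y`: `y k < u < v < y k + β ε`, so `β > 0`.
`φ = β⁻¹ • (c • h - k)` with `c = (u + v) / 2`: for `e ∈ Bs`: `e φ = (c - e k) / β > 0`; for `e ∈ T`: `e k + β < u < c`, so `e φ > 1`; for `e ∈ Y`: `e k + β ε > v > c`, so `e φ < ε` (`e h = 1`). -/
def S_Cap : Prop := ∀ (M : Type) [TopologicalSpace M] (K : Type) [NormedAddCommGroup K]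
  [NormedSpace ℝ K] [FiniteDimensional ℝ K] (ev : K →ₗ[ℝ] (M → ℝ)) (h : K), KS ev h →
  ∀ Y T : Set (K →L[ℝ] ℝ), Fa ev h Y → IsCompact T → T ⊆ Bs ev h → T ∩ Y = ∅ → ∀ ε : ℝ, 0 < ε →
  ∃ φ : K, (∀ e ∈ Bs ev h, 0 < e φ) ∧ (∀ e ∈ T, 1 < e φ) ∧ ∀ e ∈ Y, e φ < ε

/-- **CapZ** (90 lines; uses `S_RI`).  Caps, version with zeros on the face.
Proof.  (1) If `x ∈ Bs` and `x ∈ affineSpan ℝ Y` then `x ∈ Y`: take `p ∈ RInt Y`; `x - p ∈ vectorSpan ℝ Y`, so there is `t > 0` with `q = p - t (x - p) ∈ Y`; `p` is in the open segment of `x` and `q`, `Y` is extreme, so `x ∈ Y`.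
(2) As in `cap` (`Geo`): `convexHull ℝ T` is compact and contained in `{z | z ∈ Bs ∧ z ∉ Y}`, so disjoint from `affineSpan ℝ Y`, which is convex and closed (`AffineSubspace.closed_of_finiteDimensional`).
`geometric_hahn_banach_compact_closed`: `f < u` on `T`, `v < f` on `affineSpan ℝ Y`.  `f` is constant on the affine span (for `x, y` in it `AffineMap.lineMap x y t`, all `t : ℝ`, is in it, and `f` is bounded below there), `= c` say; `f e = e k` (`dual_eval`);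
`χ = c • h - k`. -/
def S_CapZ : Prop := ∀ (M : Type) [TopologicalSpace M] (K : Type) [NormedAddCommGroup K]
  [NormedSpace ℝ K] [FiniteDimensional ℝ K] (ev : K →ₗ[ℝ] (M → ℝ)) (h : K), KS ev h →
  ∀ Y T : Set (K →L[ℝ] ℝ), Fa ev h Y → IsCompact T → T ⊆ Bs ev h → T ∩ Y = ∅ →
  ∃ χ : K, (∀ e ∈ Y, e χ = 0) ∧ ∀ e ∈ T, 0 < e χ

/-- **Crd** (80 lines; uses `S_RI`).  Coordinates around a relative interior point.
Proof.  `V = vectorSpan ℝ Y ⊆ K →L[ℝ] ℝ`, `j = finrank V`, `b` a basis of `V` with index set `Fin j`.  There are `m₀ i : K` with `b l (m₀ i) = δ_{l i}`: the coordinate functionals of `b` on `V` extend to linear functionals on `K →L[ℝ] ℝ`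
(`LinearMap.exists_extend`, continuous in finite dimension), which are evaluations at elements of `K` (`dual_eval`).  `m i = m₀ i - ψ (m₀ i) • h`: all `v ∈ V` have `v h = 0` (`e h = 1` on `Y`; `vectorSpan` is the span of the differences), so still
`b l (m i) = δ_{l i}`, and `ψ (m i) = 0`.  (i) `u ≠ 0`: `v = ∑ u l • b l ∈ V`, `t > 0` with `e = ψ + t v ∈ Y` (`S_RI`), `∑ i, u i * e (m i) = t ∑ (u i)² > 0`.  (ii) `e ∈ Y`, `e - ψ = ∑ c l • b l`, `c i = (e - ψ) (m i) = 0`. -/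
def S_Crd : Prop := ∀ (K : Type) [NormedAddCommGroup K] [NormedSpace ℝ K] [FiniteDimensional ℝ K]
  (h : K) (Y : Set (K →L[ℝ] ℝ)), Convex ℝ Y → (∀ e ∈ Y, e h = 1) → ∀ ψ ∈ RInt Y,
  ∃ (j : ℕ) (m : Fin j → K), (∀ i, ψ (m i) = 0) ∧
    (∀ u : Fin j → ℝ, u ≠ 0 → ∃ e ∈ Y, 0 < ∑ i, u i * e (m i)) ∧
    ∀ e ∈ Y, (∀ i, e (m i) = 0) → e = ψ

/-- **A11** (90 lines).  Faces of the dual cone of dimension at most two consist of limits of evaluations.
Proof.  Let `ψ₀ ∈ Y`.  If `ψ₀` is an extreme point of `Bs` use `extreme_mem`.  Otherwise there are `a ≠ b` in `Bs` with `ψ₀ ∈ openSegment ℝ a b` (negation of `mem_extremePoints`), and `a, b ∈ Y` (`Y` is extreme).  `d = b - a ≠ 0`.  `a`, `b` are linearly independent (`a h = b h = 1`), so they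
span `span ℝ Y` (dimension `≤ 2`), and every `e ∈ Y` is `α a + β b` with `α + β = e h = 1`: `e = a + t d` with `t = β`.  `I = {t : ℝ | a + t • d ∈ Y}` is closed, convex, bounded (`Y ⊆ Bs` is bounded, `d ≠ 0`), contains `0` and `1`: `I = [t₁, t₂]`, `t₁ < t₂` (`sInf`, `sSup`).
`ψ_i = a + t_i d` are extreme points of `Bs`: if `ψ₁ ∈ openSegment x y`, `x, y ∈ Bs`, then `x, y ∈ Y`, so `x = a + s d`, `y = a + s' d` with `s, s' ≥ t₁` and `t₁` strictly between or equal: `s = s' = t₁`.  `Y = segment ℝ ψ₁ ψ₂`, `ψ₀ ∈ openSegment ℝ ψ₁ ψ₂` (`ψ₀` is not extreme, so `≠ ψ₁, ψ₂`): `a11_seg`. -/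
def S_A11 : Prop := ∀ (M : Type) [TopologicalSpace M] (K : Type) [NormedAddCommGroup K]
  [NormedSpace ℝ K] [FiniteDimensional ℝ K] (ev : K →ₗ[ℝ] (M → ℝ)) (h : K), KS ev h →
  ∀ Y : Set (K →L[ℝ] ℝ), Fa ev h Y → Module.finrank ℝ (Submodule.span ℝ Y) ≤ 2 → Y ⊆ E1 ev h

/-- **Sup** (40 lines).  An element of the cone which is not an order unit vanishes at a point of the base of the dual cone.
Proof.  Otherwise `e l > 0` for all `e ∈ Bs` (`l ∈ Ln ev`).  `Bs` is compact and not empty (`KS.pos`, `exists_beta`), so there is `c > 0` with `c ≤ e l` on `Bs` (`IsCompact.exists_isMinOn`, `continuous_eval`).  `l - c • h ∈ Ln ev` (`Ln_of_E1`, `E1_sub`, `e h = 1`), so `ev h y ≤ c⁻¹ * ev l y`. -/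
def S_Sup : Prop := ∀ (M : Type) [TopologicalSpace M] (K : Type) [NormedAddCommGroup K]
  [NormedSpace ℝ K] [FiniteDimensional ℝ K] (ev : K →ₗ[ℝ] (M → ℝ)) (h : K), KS ev h →
  ∀ l ∈ Ln ev, (¬ ∃ s : ℝ, ∀ y, ev h y ≤ s * ev l y) → ∃ ψ ∈ Bs ev h, ψ l = 0

/-- **Bet** (50 lines).  The evaluations at the points of a compact set.
Proof.  Let `b : Fin n → K` be a basis (`Module.finBasis`).  `g y : K →L[ℝ] ℝ`, `g y = (ev h y)⁻¹ • ∑ i, ev (b i) y • (coordinate i)`, where `coordinate i` is the continuous linear functional `LinearMap.toContinuousLinearMap (b.coord i)`; `g y k = ev k y / ev h y` for all `k`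
(`Basis.sum_repr`, linearity of `ev`).  `g` is continuous on `Q` (`ev (b i)`, `ev h` are continuous, `ev h y ≠ 0` on `Q`), and the set in question is `g '' Q` (`ContinuousLinearMap.ext`).  It is in `Bs` because it is in `E0 ⊆ E1` (`subset_closure`, `E1_sub`). -/
def S_Bet : Prop := ∀ (M : Type) [TopologicalSpace M] (K : Type) [NormedAddCommGroup K]
  [NormedSpace ℝ K] [FiniteDimensional ℝ K] (ev : K →ₗ[ℝ] (M → ℝ)) (h : K), KS ev h →
  ∀ Q : Set M, IsCompact Q → (∀ y ∈ Q, 0 < ev h y) →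
  IsCompact {e : K →L[ℝ] ℝ | ∃ y ∈ Q, ∀ k, e k = ev k y / ev h y} ∧
    {e : K →L[ℝ] ℝ | ∃ y ∈ Q, ∀ k, e k = ev k y / ev h y} ⊆ E1 ev h

/-! ## The filling argument -/

/-- **NSph** (50 lines).  Spheres are not acyclic.
Proof.  `j = n + 2`: `sph_bas n` (`AS/Sphn`, `finrank_euclideanSpace_fin`) gives `s` with `Bas2 … (n + 1) s`, so `s ≠ 0`, but `Acy` says `s = 0`.  `j = 1`: the sphere is `{e, -e}`, `e = EuclideanSpace.single 0 1` (`P33.SU_line` in `AS/Sphn` for `U = ⊤`, or directly: `EuclideanSpace.norm_eq`, `Fin 1`),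
`P33.two_pts` gives a class of degree `0` different from `0` and `one`; rewrite the sphere as `{e, -e}` first. -/
def S_NSph : Prop := ∀ j : ℕ, 1 ≤ j →
  ¬ Acy (⊥ : Subgroup (EuclideanSpace ℝ (Fin j) ≃ᵢ EuclideanSpace ℝ (Fin j)))
    (Metric.sphere (0 : EuclideanSpace ℝ (Fin j)) 1)

/-- the data of the filling argument, functions on `ℝ⁴` which are even and continuous on the sphere `Sp` -/
structure FD {j : ℕ} (m : E4 → EuclideanSpace ℝ (Fin j)) (φ k : E4 → ℝ) (η : ℝ) : Prop where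
  mc : ContinuousOn m Sp
  pc : ContinuousOn φ Sp
  kc : ContinuousOn k Sp
  me : ∀ x, m (-x) = m x
  pe : ∀ x, φ (-x) = φ x
  ke : ∀ x, k (-x) = k x
  nn : ∀ x ∈ Sp, 0 ≤ φ x
  eta : 0 < η
  ine : ∀ u ∈ Metric.sphere (0 : EuclideanSpace ℝ (Fin j)) 1, ∀ x ∈ Sp,
    inner ℝ u (m x) - φ x ≤ k x
  mz : ∀ x ∈ Sp, η ≤ k x → m x ≠ 0
  aA : Acy (Pm E4) {x | x ∈ Sp ∧ η ≤ k x}
  aI : ∀ u ∈ Metric.sphere (0 : EuclideanSpace ℝ (Fin j)) 1,
    Acy (Pm E4) {x | x ∈ Sp ∧ η ≤ inner ℝ u (m x) - φ x}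

/-- **FilT** (150 lines; uses `W1a`, `W1b`, `S_NSph`).  The filling argument.
Proof.  `B = EuclideanSpace ℝ (Fin j)`, `P` = unit sphere, `X = {x ∈ Sp | η ≤ k x}` (`Cs (Pm E4) X`: closed, symmetric).
`I = {(u, x) | u ∈ P ∧ x ∈ Sp ∧ η ≤ inner u (m x) - φ x}`, `I' = {(u, x) | u ∈ P ∧ x ∈ X ∧ 0 ≤ inner u (m x)}`.  Both are compact (closed in `P ×ˢ Sp`; `ContinuousOn.preimage_isClosed_of_isClosed`), `Tot I P X` and `Tot I' P X`
(`ine`: `η ≤ inner u (m x) - φ x ≤ k x`), `I ⊆ I'` (`φ ≥ 0`, `η > 0`).  `Tot.vb1` for `I` (`aI`): `pull Prod.fst` is bijective for `I`.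
`Tot.vb2` for `I'`: the fibre over `x ∈ X` is the closed hemisphere `{u | u ∈ P ∧ 0 ≤ inner u (m x)}`, acyclic by `P33.hS_acy` (`AS/Sphn`) with `U = ⊤`, `v = ‖m x‖⁻¹ • m x` (`mz`; rewrite the set).  So `Acy (PX B) I'` (`P33.Acy.of_pull`, `aA`).
`acy_of_factor` (`AS/Tot`) with `f = Prod.fst`: `Acy ⊥ P` (`P` is not empty as `j ≥ 1`), contradiction to `S_NSph`. -/
def S_FilT : Prop := ∀ (j : ℕ) (m : E4 → EuclideanSpace ℝ (Fin j)) (φ k : E4 → ℝ) (η : ℝ),
  1 ≤ j → FD m φ k η → False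

/-- **HfE** (50 lines; uses `T0.XOne`, `T0.XPow`).  Even closed sets all of whose classes are powers of `a` are acyclic.
Proof.  `ap 1 (up A) = 0` (`XOne`), so `ap k (up A) = 0` for `k ≥ 1` (`XPow`).  Degree `n + 1`: `Gen`.  Degree `0`: a class is `0` or `ap 0 (up A)`, and `ap 0 (up A) = one` (`ap`, `one` are classes of `apc 0` and of the constant function `1`; `apc 0 [x] = pr [x] = 1` for `x ≠ 0`: `cl_eq_cl`,
`Bnd_of_Z0`, `apc_pos`).  `one ≠ 0`: `okN2`, `up A` is not empty (`pj_surj`). -/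
def S_HfE : Prop := ∀ A : Set RP3, IsClosed A → A.Nonempty → R3.Gen (up A) → Even A →
  Acy (Pm E4) (up A)

/-- Lemma N for the functions in `K` -/
def LmN {K : Type} [NormedAddCommGroup K] [NormedSpace ℝ K] (ι : K →ₗ[ℝ] W)
    (ev : W →ₗ[ℝ] (RP3 → ℝ)) : Prop :=
  ∀ k : K, Even {y | 0 < ev (ι k) y} ∨ Even {y | ev (ι k) y < 0}

/-- **Fill** (200 lines; uses `S_RI`, `S_Cap`, `S_Crd`, `S_Bet`, `S_FilT`, `S_HfE`).  FILL': a face of the dual cone which is missed by an odd compact set consists of limits of evaluations. -/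
def S_Fill : Prop := ∀ (F : Type) [Field F] (ev : W →ₗ[ℝ] (RP3 → ℝ)), CSys F ev →
  ∀ (K : Type) [NormedAddCommGroup K] [NormedSpace ℝ K] [FiniteDimensional ℝ K] (ι : K →ₗ[ℝ] W)
  (h : K), KS (ev.comp ι) h → LmN ι ev → ∀ Y : Set (K →L[ℝ] ℝ), Fa (ev.comp ι) h Y →
  ∀ Q : Set RP3, IsClosed Q → ¬ Even Q →
  (∀ y ∈ Q, 0 < ev (ι h) y ∧ ∀ e ∈ Y, ∃ k : K, e k ≠ ev (ι k) y / ev (ι h) y) → Y ⊆ E1 (ev.comp ι) h

/-! ## (a2) -/

/-- **EvN** (60 lines).  Decreasing sequences of closed sets with even intersection.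
Proof.  `A = ⋂ n, C n`, `U` from `Even A`.  `A⁺ = up A ∩ U`, `A⁻ = up A ∩ {x | x ∉ U}`; `A⁻` is closed; `A⁺ = up A ∩ {x | -x ∉ U}` is closed as well, `A⁻ = -A⁺` (for `x ∈ up A`: `x ∈ U ↔ -x ∉ U`).  `A⁺`, `A⁻` are disjoint and compact: there is `ρ > 0` such that the open sets `O = thickening ρ A⁺` and
`O' = thickening ρ A⁻ = -O` are disjoint (`Disjoint.exists_thickenings`; make `ρ` symmetric; or take the open set `O = {x | infDist x A⁺ < infDist x A⁻}`, for nonempty `A`: it is open, `-O = {infDist x A⁻ < infDist x A⁺}`).  `O ∪ -O` is open and contains `up A = ⋂ up (C n)`; the sets `up (C n)`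
are compact and decreasing, so some `up (C n) ⊆ O ∪ -O` (`exists_subset_nhds_of_isCompact'` or `IsCompact.nonempty_iInter_of_sequence_nonempty_isCompact_isClosed` for `up (C n) \ (O ∪ -O)`).  `U' = O` shows `Even (C n)`.  If `A` is empty, some `C n` is empty (`RP3` is compact) and every set works. -/
def S_EvN : Prop := ∀ C : ℕ → Set RP3, (∀ n, IsClosed (C n)) → Antitone C → Even (⋂ n, C n) →
  ∃ n, Even (C n)

/-- **Cov** (60 lines; uses `T0.XOne`, `R3.S_RP`, `K3`).  Projective space is not the union of three closed even sets.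
Proof.  `U = A ∪ B`.  `ap 1 (up A) = 0`, `ap 1 (up B) = 0`, `ap 1 (up C) = 0` (`XOne`).  `K3` (`Γ = Pm E4`, sets `up A`, `up B`, `up U = up A ∪ up B` (`up_union`), `up_ok`, `p = q = 1`, classes `ap 1 (up U)`, `res_ap`): `cupH ∅ 2 (ap 1) (ap 1) = 0`, and it is `ap 2 (up U)` (`cupH_cl`, `cup_apc`).  `K3` again
with `up U`, `up C`, `Sp = up U ∪ up C`, `p = 2`, `q = 1`: `ap 3 Sp = 0`, contradiction to `S_RP`.  (Compare `AS/R3/Ev.lean`, `AS/RPn.lean` `ap_union`.) -/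
def S_Cov : Prop := ∀ A B C : Set RP3, IsClosed A → IsClosed B → IsClosed C → Even A → Even B →
  Even C → A ∪ B ∪ C ≠ Set.univ

/-- **A2** (50 lines; uses `S_EvN`, `S_Cov`).  The sum of two functions of rank one is not of rank three.
Proof.  Suppose `Even (Zr ev (g + g'))`.  `C n = {y | ev g y + ev g' y ≤ 2 / (n + 1)}` is closed, decreasing, with intersection `Zr ev (g + g')` (`g, g' ≥ 0`), so some `C n` is even (`S_EvN`); with `ε = 1 / (n + 1)`: `univ = {ε ≤ g} ∪ {ε ≤ g'} ∪ C n`, and `{ε ≤ g} ⊆ {0 < g}` is even (`Even.mono`, `T2set`). -/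
def S_A2 : Prop := ∀ (F : Type) [Field F] (ev : W →ₗ[ℝ] (RP3 → ℝ)), CSys F ev →
  ∀ g ∈ T2set ev, ∀ g' ∈ T2set ev, ¬ Even (Zr ev (g + g'))

/-! ## (a7) -/

/-- **B3** (70 lines; uses `T0.XGen`, `T0.XTop`, `T0.XEv`, `T0.XPow`).  The zero set of a function of rank one has the basis `1, a, a²`.
Proof.  `Zr ev g = {x | 0 ≤ ev (-g) x}` (`g ≥ 0`), so `Gen (up (Zr ev g))` (`XGen`).  `Zr ev g = Vᶜ` with `V = {x | 0 < ev g x}` open and even: `ap 2 ≠ 0` (`XEv`), so `ap 1 ≠ 0` (`XPow`).  `V` is not empty: otherwise `ev g = 0`, `g = 0` (`CSys.inj`); so `Zr ev g ≠ univ` and the classes of degree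
`n + 3` vanish (`XTop`).  Degree `0`: `0` or `ap 0 = one` (as in `S_HfE`), `one ≠ 0` (`okN2`, nonempty). -/
def S_B3 : Prop := ∀ (F : Type) [Field F] (ev : W →ₗ[ℝ] (RP3 → ℝ)), CSys F ev →
  ∀ g ∈ T2set ev, Bas3 (Pm E4) (up (Zr ev g)) (ap 1 _ (zero_notMem_up _))
    (ap 2 _ (zero_notMem_up _))

/-- **A7T** (150 lines; uses `W1b`, `W3a`, `S_B3`, `R3.S_RP`).  A compact convex set of functions of rank one has a common point of positivity.
Proof.  Otherwise for every `y` there is `g ∈ P` with `ev g y = 0` (`ev g y ≥ 0`).  `I = {(g, x) | g ∈ P ∧ x ∈ Sp ∧ ev g (pj x) = 0} ⊆ W × ℝ⁴`: compact (the function `(g, x) ↦ ev g (pj x)` is continuous on `W × Sp`: `ev g z = ∑ i, g i * ev (basis i) z`), `Tot I P Sp`.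
(1) `Tot.vb2`: the fibre over `x` is `{g ∈ P | ev g (pj x) = 0}`, compact, convex, not empty: acyclic (`P33.convex_acy`).  So `pull Prod.snd (ap 3 Sp) ≠ 0` (`S_RP`).
(2) `W3a` for `Prod.fst` (`Tot.fib1`), `a = pull Prod.snd (ap 1 Sp)`, `c = pull Prod.snd (ap 2 Sp)` on `I`; the fibre is `{g} ×ˢ up (Zr ev g)` (`ov_fst`); `Bas3` is transported by `slice1_bij` from `S_B3` (write the lemma `Bas3.of_pull` as `P33.Bas2.of_pull` in `AS/Hom`; the restriction of `a` to the fibre is the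
pullback of `ap 1 (up (Zr ev g))`: `res_pull`, `res_ap`).  `C = P`, third part with `m = 1`: every class of degree `3` on `I` (`= ov I Prod.fst P`, `Tot.ov1`) is `pull z₁ + cupH (pull z₂) a + cupH (pull z₃) c` with `z₁, z₂, z₃` classes of positive degree `3, 2, 1` on the convex set `P`, so `z_i = 0` (`P33.convex_acy`)
and the class is `0`.  Contradiction. -/
def S_A7T : Prop := ∀ (F : Type) [Field F] (ev : W →ₗ[ℝ] (RP3 → ℝ)), CSys F ev →
  ∀ P : Set W, IsCompact P → Convex ℝ P → P.Nonempty → P ⊆ T2set ev → ∃ y, ∀ g ∈ P, 0 < ev g y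

/-- **A7** (80 lines; uses `S_A7T`).  (a7): for a thin face there is a common point of positivity.
Proof.  If `Φ = {0}` take any `y`.  `Cn ev` is closed (`ev · x` is continuous on the finite dimensional space `W`: `LinearMap.continuous_of_finiteDimensional`), and a face is `Cn ev ∩ span Φ` (if `x ∈ Cn`, `x = a - b` with `a, b ∈ Φ` then `x + b = a ∈ Φ`, so `x ∈ Φ`; elements of the span of the convex cone `Φ` are
differences `a - b`: `Submodule.span_induction`), so `Φ` is closed.  There is a linear form `λ` on `W` which is positive on `Φ - 0`: `D1.PosStmt` is not needed: there are finitely many points `x_1, …, x_n` with `∑ ev g (x_i) > 0` for all `g ∈ Cn ev - 0`: the set `S = {g ∈ Cn ev | ‖g‖ = 1}` is compact, and for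
`g ∈ S` some `ev g x > 0` (`CSys.inj`), an open condition in `g`; finitely many `x_i` suffice; `λ g = ∑ i, ev g (x_i)`.  `P = {g ∈ Φ | λ g = 1}`: closed, convex, bounded (`λ g ≥ c ‖g‖` on `Cn ev` by compactness of `S` and homogeneity), nonempty.  `S_A7T` gives `y`; for `g ∈ Φ`, `g ≠ 0`: `g = λ g • g₁`, `g₁ ∈ P`. -/
def S_A7 : Prop := ∀ (F : Type) [Field F] (ev : W →ₗ[ℝ] (RP3 → ℝ)), CSys F ev →
  ∀ Φ : Set W, IsFace ev Φ → (∀ g ∈ Φ, g ≠ 0 → g ∈ T2set ev) →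
  ∃ y, ∀ g ∈ Φ, g ≠ 0 → 0 < ev g y

/-! ## The cone of a regular point -/

/-- **Lrx** (70 lines; uses `S_RI`).  Faces have relative interior points; the relative interior points of a face have zero set `Xz ev Φ`.
Proof.  (1) `Φ` is convex (a cone) and not empty: `S_RI` gives `h ∈ RInt Φ`.  For `g ∈ Φ`: `y = h + g ∈ Φ`, so there is `t > 0` with `h - t (y - h) = h - t g ∈ Φ`.  (2) `h ∈ RI Φ`: `h` vanishes on `Xz`; conversely, `ev h x = 0`, `g ∈ Φ`, `h - t g ∈ Φ ⊆ Cn`: `0 ≤ ev (h - t g) x = - t ev g x ≤ 0`.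
(3) If some `g ∈ Φ` has an even zero set then `Zr ev h ⊆ Zr ev g` is even (`Even.mono`). -/
def S_Lrx : Prop := ∀ (ev : W →ₗ[ℝ] (RP3 → ℝ)) (Φ : Set W), IsFace ev Φ →
  (∃ h, TightRP.C3.RI Φ h) ∧
  ∀ h, TightRP.C3.RI Φ h → Zr ev h = Xz ev Φ ∧ ((∃ g ∈ Φ, Even (Zr ev g)) → Even (Zr ev h))

/-- **KSz** (70 lines; uses `T0.XPre`).  The system of a face `Φ ≠ {0}` with relative interior point `h`.
Proof.  `cont`: `CSys.cont`.  `conn`: `XPre`.  `nn`: `h ∈ Cn ev`.  `pos`: `h ≠ 0` (`g ∈ Φ`, `g ≠ 0`, `h - t g ∈ Φ`; if `h = 0` then `-t g ∈ Cn ev` and `g ∈ Cn ev`, so `ev g = 0`, `g = 0` by `CSys.inj`), so `ev h ≠ 0`.  `unit`: an element of `span ℝ Φ` is `a - b` with `a, b ∈ Φ`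
(`Submodule.span_induction`; `Φ` is a convex cone), `h - t a ∈ Cn`: `ev (a - b) y ≤ ev a y ≤ t⁻¹ ev h y`.  Second claim: `l ∈ Ln`, then `l ∈ Cn ev` and `l` is in the span of the face `Φ`: `l = a - b`, `l + b = a ∈ Φ`, so `l ∈ Φ`. -/
def S_KSz : Prop := ∀ (F : Type) [Field F] (ev : W →ₗ[ℝ] (RP3 → ℝ)), CSys F ev →
  ∀ Φ : Set W, IsFace ev Φ → (∃ g ∈ Φ, g ≠ 0) → ∀ h : Submodule.span ℝ Φ,
  TightRP.C3.RI Φ (h : W) →
  KS (ev.comp (Submodule.span ℝ Φ).subtype) h ∧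
  ∀ l : Submodule.span ℝ Φ, l ∈ Ln (ev.comp (Submodule.span ℝ Φ).subtype) ↔ (l : W) ∈ Φ

/-- **NfF** (10 lines).  `Nf ev z` is a face. -/
def S_NfF : Prop := ∀ (ev : W →ₗ[ℝ] (RP3 → ℝ)) (z : RP3), IsFace ev (Nf ev z)

end T4b

end C32
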