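import Pool.Agent.Lib.MP_7cdc3e_gt.C.T4b.Spec

/-!
# MP_7cdc3e_gt, C32, T4b: (a11), faces of dimension at most two
-/

set_option autoImplicit false

open Set AS TightRP TightRP.C3

namespace C32

namespace T4b

private theorem A11_aff {V : Type} [AddCommGroup V] [Module ℝ V] (a d : V) (p q s t : ℝ)
    (hpq : p + q = 1) : p • (a + s • d) + q • (a + t • d) = a + (p * s + q * t) • d := by
  have h1 : q = 1 - p := by linarith
  rw [h1]
  module

private theorem A11_inj {V : Type} [AddCommGroup V] [Module ℝ V] {a d : V} (hd : d ≠ 0) {s t : ℝ}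
    (h : a + s • d = a + t • d) : s = t := by
  have h1 : s • d = t • d := add_left_cancel h
  have h2 : (s - t) • d = 0 := by rw [sub_smul, h1, sub_self]
  rcases smul_eq_zero.1 h2 with h3 | h3
  · linarith
  · exact absurd h3 hd

theorem tA11 : S_A11 := by
  intro M _ K _ _ _ ev h H Y hY hdim ψ₀ hψ₀
  by_cases hext : ψ₀ ∈ (Bs ev h).extremePoints ℝ
  · exact extreme_mem H hext
  have hYB : Y ⊆ Bs ev h := hY.ext.subset
  obtain ⟨a, haB, b, hbB, hab0, hne⟩ : ∃ a ∈ Bs ev h, ∃ b ∈ Bs ev h,
      ψ₀ ∈ openSegment ℝ a b ∧ a ≠ b := by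
    rw [mem_extremePoints_iff_left] at hext
    push Not at hext
    obtain ⟨a, ha, b, hb, h1, h2⟩ := hext (hYB hψ₀)
    refine ⟨a, ha, b, hb, h1, ?_⟩
    rintro rfl
    rw [openSegment_same] at h1
    exact h2 h1.symm
  have haY : a ∈ Y := hY.ext.left_mem_of_mem_openSegment haB hbB hψ₀ hab0
  have hbY : b ∈ Y := hY.ext.left_mem_of_mem_openSegment hbB haB hψ₀
    (by rwa [openSegment_symm])
  set d : K →L[ℝ] ℝ := b - a with hddef
  have hd : d ≠ 0 := sub_ne_zero.2 hne.symm
  -- every element of `Y` is on the line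
  have hline : ∀ e ∈ Y, ∃ t : ℝ, e = a + t • d := by
    have hli : LinearIndependent ℝ ![a, b] := by
      rw [LinearIndependent.pair_iff]
      intro s t hst
      have h1 : s + t = 0 := by
        have h2 := congrArg (fun f : K →L[ℝ] ℝ => f h) hst
        have h3 : s * a h + t * b h = 0 := h2
        rw [haB.2, hbB.2] at h3
        linarith
      have h2 : t • d = 0 := by
        have h3 : s = -t := by linarith
        rw [h3] at hst
        rw [hddef, smul_sub, sub_eq_add_neg, add_comm, ← neg_smul]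
        exact hst
      have h3 : t = 0 := (smul_eq_zero.1 h2).resolve_right hd
      exact ⟨by linarith, h3⟩
    have hspan : Submodule.span ℝ (Set.range ![a, b]) = Submodule.span ℝ Y := by
      apply Submodule.eq_of_le_of_finrank_le
      · rw [Submodule.span_le]
        rintro _ ⟨i, rfl⟩
        fin_cases i
        · exact Submodule.subset_span haY
        · exact Submodule.subset_span hbY
      · rw [finrank_span_eq_card hli]
        simpa using hdim
    intro e he
    have h1 : e ∈ Submodule.span ℝ (Set.range ![a, b]) := by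
      rw [hspan]; exact Submodule.subset_span he
    have h2 : Set.range ![a, b] = {a, b} := by
      simp [Matrix.range_cons, Matrix.range_empty, Set.pair_comm]
    rw [h2, Submodule.mem_span_pair] at h1
    obtain ⟨s, t, rfl⟩ := h1
    have h3 : s + t = 1 := by
      have h4 := (hYB he).2
      have h5 : s * a h + t * b h = 1 := h4
      rw [haB.2, hbB.2] at h5
      linarith
    refine ⟨t, ?_⟩
    have h4 : s = 1 - t := by linarith
    rw [h4, hddef]
    module
  -- the interval
  set I : Set ℝ := {t : ℝ | a + t • d ∈ Y} with hIdef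
  have hIcl : IsClosed I := hY.cl.preimage (by fun_prop)
  have hIbd : ∃ C : ℝ, ∀ t ∈ I, |t| ≤ C := by
    obtain ⟨k, hk⟩ : ∃ k : K, d k ≠ 0 := by
      by_contra hc
      push Not at hc
      exact hd (ContinuousLinearMap.ext hc)
    obtain ⟨s, hs⟩ := Bs_bd H k
    refine ⟨(s + |a k|) / |d k|, fun t ht => ?_⟩
    rw [le_div_iff₀ (abs_pos.2 hk), ← abs_mul]
    have h1 : |a k + t * d k| ≤ s := hs _ (hYB ht)
    have h2 : t * d k = (a k + t * d k) - a k := by ring
    rw [h2]
    have h3 := abs_sub (a k + t * d k) (a k)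
    linarith
  have hIc : IsCompact I := by
    obtain ⟨C, hC⟩ := hIbd
    exact (isCompact_Icc (a := -C) (b := C)).of_isClosed_subset hIcl fun t ht => abs_le.1 (hC t ht)
  have h0I : (0 : ℝ) ∈ I := by
    change a + (0 : ℝ) • d ∈ Y
    rw [zero_smul, add_zero]; exact haY
  have h1I : (1 : ℝ) ∈ I := by
    change a + (1 : ℝ) • d ∈ Y
    rw [one_smul, hddef, add_sub_cancel]; exact hbY
  have hIne : I.Nonempty := ⟨0, h0I⟩
  have hmin := hIc.sInf_mem hIne
  have hmax := hIc.sSup_mem hIne
  set t₁ := sInf I with ht₁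
  set t₂ := sSup I with ht₂
  have hge : ∀ t ∈ I, t₁ ≤ t := fun t ht => csInf_le hIc.bddBelow ht
  have hle : ∀ t ∈ I, t ≤ t₂ := fun t ht => le_csSup hIc.bddAbove ht
  have h10 : t₁ ≤ 0 := hge 0 h0I
  have h12 : 1 ≤ t₂ := hle 1 h1I
  -- the ends are extreme points
  have hend : ∀ t ∈ I, (∀ p q s s' : ℝ, 0 < p → 0 < q → p + q = 1 → s ∈ I → s' ∈ I →
      t = p * s + q * s' → s = t) → a + t • d ∈ (Bs ev h).extremePoints ℝ := by
    intro t ht hprop
    rw [mem_extremePoints_iff_left]
    refine ⟨hYB ht, fun x hx y hy hxy => ?_⟩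
    have hxY : x ∈ Y := hY.ext.left_mem_of_mem_openSegment hx hy ht hxy
    have hyY : y ∈ Y := hY.ext.left_mem_of_mem_openSegment hy hx ht
      (by rwa [openSegment_symm])
    obtain ⟨s, hs⟩ := hline x hxY
    obtain ⟨s', hs'⟩ := hline y hyY
    obtain ⟨p, q, hp, hq, hpq, hz⟩ := hxy
    rw [hs, hs', A11_aff a d p q s s' hpq] at hz
    have h1 := A11_inj hd hz
    have hsI : s ∈ I := by change a + s • d ∈ Y; rw [← hs]; exact hxY
    have hsI' : s' ∈ I := by change a + s' • d ∈ Y; rw [← hs']; exact hyY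
    rw [hs, hprop p q s s' hp hq hpq hsI hsI' h1.symm]
  have hψ₁ := hend t₁ hmin (by
    intro p q s s' hp hq hpq hs hs' ht
    have h1 := hge s hs
    have h2 := hge s' hs'
    have h3 : p * (s - t₁) + q * (s' - t₁) = 0 := by
      have : p * (s - t₁) + q * (s' - t₁) = (p * s + q * s') - (p + q) * t₁ := by ring
      rw [this, ← ht, hpq]; ring
    have h4 : 0 ≤ q * (s' - t₁) := mul_nonneg hq.le (by linarith)
    have h5 : p * (s - t₁) ≤ 0 := by linarith
    have h6 : s - t₁ ≤ 0 := by
      by_contra hc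
      have := mul_pos hp (not_le.1 hc)
      linarith
    linarith)
  have hψ₂ := hend t₂ hmax (by
    intro p q s s' hp hq hpq hs hs' ht
    have h1 := hle s hs
    have h2 := hle s' hs'
    have h3 : p * (t₂ - s) + q * (t₂ - s') = 0 := by
      have : p * (t₂ - s) + q * (t₂ - s') = (p + q) * t₂ - (p * s + q * s') := by ring
      rw [this, ← ht, hpq]; ring
    have h4 : 0 ≤ q * (t₂ - s') := mul_nonneg hq.le (by linarith)
    have h5 : p * (t₂ - s) ≤ 0 := by linarith
    have h6 : t₂ - s ≤ 0 := by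
      by_contra hc
      have := mul_pos hp (not_le.1 hc)
      linarith
    linarith)
  have hlt : t₁ < t₂ := by linarith
  have hne' : a + t₁ • d ≠ a + t₂ • d := fun hh => by
    have := A11_inj hd hh
    linarith
  have hseg : segment ℝ (a + t₁ • d) (a + t₂ • d) = Y := by
    apply Subset.antisymm
    · exact hY.cvx.segment_subset hmin hmax
    · intro e he
      obtain ⟨t, rfl⟩ := hline e he
      have h1 := hge t he
      have h2 := hle t he
      have h3 : 0 < t₂ - t₁ := by linarith
      refine ⟨(t₂ - t) / (t₂ - t₁), (t - t₁) / (t₂ - t₁), div_nonneg (by linarith) h3.le,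
        div_nonneg (by linarith) h3.le, ?_, ?_⟩
      · rw [← add_div, div_eq_one_iff_eq h3.ne']; ring
      · rw [A11_aff a d _ _ t₁ t₂ (by rw [← add_div, div_eq_one_iff_eq h3.ne']; ring)]
        have h4 : (t₂ - t) / (t₂ - t₁) * t₁ + (t - t₁) / (t₂ - t₁) * t₂ = t := by
          field_simp
          ring
        rw [h4]
  have hopen : ψ₀ ∈ openSegment ℝ (a + t₁ • d) (a + t₂ • d) := by
    obtain ⟨p, q, hp, hq, hpq, rfl⟩ := hab0
    have h3 : 0 < t₂ - t₁ := by linarith
    have hp' : p = 1 - q := by linarith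
    refine ⟨(t₂ - q) / (t₂ - t₁), (q - t₁) / (t₂ - t₁), div_pos (by linarith) h3,
      div_pos (by linarith) h3, ?_, ?_⟩
    · rw [← add_div, div_eq_one_iff_eq h3.ne']; ring
    · rw [A11_aff a d _ _ t₁ t₂ (by rw [← add_div, div_eq_one_iff_eq h3.ne']; ring)]
      have h4 : (t₂ - q) / (t₂ - t₁) * t₁ + (q - t₁) / (t₂ - t₁) * t₂ = q := by
        field_simp
        ring
      rw [h4, hp', hddef]
      module
  exact a11_seg H hψ₁ hψ₂ hne' (by rw [hseg]; exact hY.ext) hopen

end T4b

end C32
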