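import Pool.Agent.Lib.MP_7cdc3e_gt.C.T4b.Spec

/-!
# MP_7cdc3e_gt, C32, T4b: (a2), the sum of two functions of rank one is not of rank three (helper51)
-/

set_option autoImplicit false

open Set AS TightRP TightRP.C3

namespace C32

namespace T4b

theorem tA2 (h1 : S_EvN) (h2 : S_Cov) : S_A2 := by
  intro F _ ev hS g hg g' hg' hev
  have hc : Continuous (ev g) := hS.cont g
  have hc' : Continuous (ev g') := hS.cont g'
  have hC : ∀ n : ℕ, IsClosed {y : RP3 | ev g y + ev g' y ≤ 2 / ((n : ℝ) + 1)} := fun n =>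
    isClosed_le (hc.add hc') continuous_const
  have hanti : Antitone fun n : ℕ => {y : RP3 | ev g y + ev g' y ≤ 2 / ((n : ℝ) + 1)} := by
    intro a b hab y hy
    have hab' : (a : ℝ) ≤ b := Nat.cast_le.mpr hab
    have h3 : (2 : ℝ) / ((b : ℝ) + 1) ≤ 2 / ((a : ℝ) + 1) := by
      apply div_le_div_of_nonneg_left (by norm_num) (by positivity) (by linarith)
    exact le_trans hy h3
  have hint : (⋂ n : ℕ, {y : RP3 | ev g y + ev g' y ≤ 2 / ((n : ℝ) + 1)}) = Zr ev (g + g') := by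
    ext y
    rw [Set.mem_iInter]
    have hadd : ev (g + g') y = ev g y + ev g' y := by
      rw [map_add]
      rfl
    have h0 : 0 ≤ ev g y := hg.1 y
    have h0' : 0 ≤ ev g' y := hg'.1 y
    constructor
    · intro h
      show ev (g + g') y = 0
      rw [hadd]
      refine le_antisymm ?_ (by linarith)
      by_contra hcon
      push Not at hcon
      obtain ⟨n, hn⟩ := exists_nat_one_div_lt (half_pos hcon)
      have h3 : ev g y + ev g' y ≤ 2 / ((n : ℝ) + 1) := h n
      have h4 : (2 : ℝ) / ((n : ℝ) + 1) = 2 * (1 / ((n : ℝ) + 1)) := by ring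
      rw [h4] at h3
      linarith
    · intro h n
      have h3 : ev (g + g') y = 0 := h
      rw [hadd] at h3
      show ev g y + ev g' y ≤ 2 / ((n : ℝ) + 1)
      rw [h3]
      positivity
  obtain ⟨n, hn⟩ := h1 _ hC hanti (by rw [hint]; exact hev)
  have hpos : (0 : ℝ) < 1 / ((n : ℝ) + 1) := by positivity
  refine h2 {y | 1 / ((n : ℝ) + 1) ≤ ev g y} {y | 1 / ((n : ℝ) + 1) ≤ ev g' y}
    {y | ev g y + ev g' y ≤ 2 / ((n : ℝ) + 1)} (isClosed_le continuous_const hc)
    (isClosed_le continuous_const hc') (hC n) (hg.2.2.2.mono fun y hy => lt_of_lt_of_le hpos hy)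
    (hg'.2.2.2.mono fun y hy => lt_of_lt_of_le hpos hy) hn ?_
  rw [Set.eq_univ_iff_forall]
  intro y
  by_cases ha : 1 / ((n : ℝ) + 1) ≤ ev g y
  · exact Or.inl (Or.inl ha)
  by_cases hb : 1 / ((n : ℝ) + 1) ≤ ev g' y
  · exact Or.inl (Or.inr hb)
  right
  show ev g y + ev g' y ≤ 2 / ((n : ℝ) + 1)
  push Not at ha hb
  have h4 : (2 : ℝ) / ((n : ℝ) + 1) = 1 / ((n : ℝ) + 1) + 1 / ((n : ℝ) + 1) := by ring
  rw [h4]
  linarith

end T4b

end C32
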