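import Pool.Agent.Lib.MP_7cdc3e_gt.C.T4b.Spec

/-!
# MP_7cdc3e_gt, C32, T4b: thin faces have a common point of positivity (`S_A7`)
-/

set_option autoImplicit false

open Set AS TightRP TightRP.C3

namespace C32

namespace T4b

theorem a7_cont (ev : W →ₗ[ℝ] (RP3 → ℝ)) (x : RP3) : Continuous fun g : W => ev g x :=
  ((LinearMap.proj x).comp ev : W →ₗ[ℝ] ℝ).continuous_of_finiteDimensional

theorem a7_Cn_closed (ev : W →ₗ[ℝ] (RP3 → ℝ)) : IsClosed (Cn ev) := by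
  have h : Cn ev = ⋂ x, {g | 0 ≤ ev g x} := by
    ext g
    rw [Set.mem_iInter]
    exact Iff.rfl
  rw [h]
  exact isClosed_iInter fun x => isClosed_le continuous_const (a7_cont ev x)

theorem a7_span {ev : W →ₗ[ℝ] (RP3 → ℝ)} {Φ : Set W} (hΦ : IsFace ev Φ) {x : W}
    (hx : x ∈ Submodule.span ℝ Φ) : ∃ a ∈ Φ, ∃ b ∈ Φ, x = a - b := by
  induction hx using Submodule.span_induction with
  | mem x hx => exact ⟨x, hx, 0, hΦ.zero, (sub_zero x).symm⟩
  | zero => exact ⟨0, hΦ.zero, 0, hΦ.zero, (sub_zero 0).symm⟩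
  | add x y _ _ hx hy =>
    obtain ⟨a, ha, b, hb, rfl⟩ := hx
    obtain ⟨c, hc, d, hd, rfl⟩ := hy
    exact ⟨a + c, hΦ.add a ha c hc, b + d, hΦ.add b hb d hd, by abel⟩
  | smul t x _ hx =>
    obtain ⟨a, ha, b, hb, rfl⟩ := hx
    rcases le_total 0 t with ht | ht
    · exact ⟨t • a, hΦ.smul t ht a ha, t • b, hΦ.smul t ht b hb, smul_sub t a b⟩
    · refine ⟨(-t) • b, hΦ.smul (-t) (neg_nonneg.mpr ht) b hb, (-t) • a,
        hΦ.smul (-t) (neg_nonneg.mpr ht) a ha, ?_⟩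
      rw [neg_smul, neg_smul, smul_sub]
      abel

theorem a7_face_closed {ev : W →ₗ[ℝ] (RP3 → ℝ)} {Φ : Set W} (hΦ : IsFace ev Φ) : IsClosed Φ := by
  have h : Φ = Cn ev ∩ (Submodule.span ℝ Φ : Set W) := by
    ext x
    constructor
    · intro hx
      exact ⟨hΦ.sub hx, Submodule.subset_span hx⟩
    · rintro ⟨hx, hx'⟩
      obtain ⟨a, ha, b, hb, h⟩ := a7_span hΦ hx'
      refine hΦ.ext x hx b (hΦ.sub hb) ?_
      rw [h, sub_add_cancel]
      exact ha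
  rw [h]
  exact (a7_Cn_closed ev).inter (Submodule.span ℝ Φ).closed_of_finiteDimensional

/-- a linear form which is positive on the cone -/
theorem a7_form {F : Type} [Field F] {ev : W →ₗ[ℝ] (RP3 → ℝ)} (h : CSys F ev) :
    ∃ l : W →ₗ[ℝ] ℝ, ∀ g ∈ Cn ev, g ≠ 0 → 0 < l g := by
  have hpos : ∀ g ∈ Cn ev, g ≠ 0 → ∃ x, 0 < ev g x := by
    intro g hg hg0
    by_contra hne
    apply hg0
    apply h.inj
    rw [map_zero]
    funext x
    refine le_antisymm ?_ (hg x)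
    by_contra hx
    exact hne ⟨x, not_le.mp hx⟩
  have hS : IsCompact (Metric.sphere (0 : W) 1 ∩ Cn ev) :=
    (isCompact_sphere (0 : W) 1).inter_right (a7_Cn_closed ev)
  obtain ⟨t, ht⟩ := hS.elim_finite_subcover (fun x : RP3 => {g : W | 0 < ev g x})
    (fun x => isOpen_lt continuous_const (a7_cont ev x)) fun g hg => by
      have hg0 : g ≠ 0 := by
        rintro rfl
        have := hg.1
        rw [mem_sphere_zero_iff_norm, norm_zero] at this
        exact zero_ne_one this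
      obtain ⟨x, hx⟩ := hpos g hg.2 hg0
      exact Set.mem_iUnion.mpr ⟨x, hx⟩
  refine ⟨∑ x ∈ t, (LinearMap.proj x).comp ev, fun g hg hg0 => ?_⟩
  have hn : 0 < ‖g‖ := norm_pos_iff.mpr hg0
  have h1 : ‖g‖⁻¹ • g ∈ Metric.sphere (0 : W) 1 ∩ Cn ev := by
    refine ⟨?_, fun x => ?_⟩
    · rw [mem_sphere_zero_iff_norm, norm_smul, norm_inv, norm_norm]
      exact inv_mul_cancel₀ hn.ne'
    · rw [map_smul, Pi.smul_apply, smul_eq_mul]
      exact mul_nonneg (inv_nonneg.mpr hn.le) (hg x)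
  obtain ⟨x, hx⟩ := Set.mem_iUnion.mp (ht h1)
  obtain ⟨hxt, hx'⟩ := Set.mem_iUnion.mp hx
  have h2 : 0 < ev g x := by
    have h3 : 0 < ev (‖g‖⁻¹ • g) x := hx'
    rw [map_smul, Pi.smul_apply, smul_eq_mul] at h3
    exact (mul_pos_iff_of_pos_left (inv_pos.mpr hn)).mp h3
  rw [LinearMap.sum_apply]
  exact Finset.sum_pos' (fun y _ => hg y) ⟨x, hxt, h2⟩

theorem tA7 (h7 : S_A7T) : S_A7 := by
  intro F _ ev hev Φ hΦ hT
  by_cases htriv : ∃ g ∈ Φ, g ≠ 0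
  swap
  · exact ⟨pj 0, fun g hg hg0 => (htriv ⟨g, hg, hg0⟩).elim⟩
  obtain ⟨g₀, hg₀, hg₀'⟩ := htriv
  obtain ⟨l, hl⟩ := a7_form hev
  have hlc : Continuous l := l.continuous_of_finiteDimensional
  have hl' : ∀ g ∈ Φ, g ≠ 0 → 0 < l g := fun g hg => hl g (hΦ.sub hg)
  let P : Set W := {g | g ∈ Φ ∧ l g = 1}
  have hP0 : ∀ g ∈ P, g ≠ 0 := by
    rintro g hg rfl
    have := hg.2
    rw [map_zero] at this
    exact zero_ne_one this
  have hmem : ∀ g ∈ Φ, g ≠ 0 → (l g)⁻¹ • g ∈ P := by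
    intro g hg hg0
    have h1 := hl' g hg hg0
    refine ⟨hΦ.smul _ (inv_nonneg.mpr h1.le) g hg, ?_⟩
    rw [map_smul, smul_eq_mul]
    exact inv_mul_cancel₀ h1.ne'
  have hK : IsCompact (Metric.sphere (0 : W) 1 ∩ Φ) :=
    (isCompact_sphere (0 : W) 1).inter_right (a7_face_closed hΦ)
  have hne : ∀ g ∈ Metric.sphere (0 : W) 1 ∩ Φ, g ≠ 0 := by
    rintro g hg rfl
    have := hg.1
    rw [mem_sphere_zero_iff_norm, norm_zero] at this
    exact zero_ne_one this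
  have hPc : IsCompact P := by
    have h1 : P = (fun g : W => (l g)⁻¹ • g) '' (Metric.sphere (0 : W) 1 ∩ Φ) := by
      ext g
      constructor
      · intro hg
        have hn : 0 < ‖g‖ := norm_pos_iff.mpr (hP0 g hg)
        refine ⟨‖g‖⁻¹ • g, ⟨?_, hΦ.smul _ (inv_nonneg.mpr hn.le) g hg.1⟩, ?_⟩
        · rw [mem_sphere_zero_iff_norm, norm_smul, norm_inv, norm_norm]
          exact inv_mul_cancel₀ hn.ne'
        · show (l (‖g‖⁻¹ • g))⁻¹ • ‖g‖⁻¹ • g = g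
          rw [map_smul, hg.2, smul_eq_mul, mul_one, inv_inv, smul_smul, mul_inv_cancel₀ hn.ne',
            one_smul]
      · rintro ⟨g', hg', rfl⟩
        exact hmem g' hg'.2 (hne g' hg')
    rw [h1]
    refine hK.image_of_continuousOn ?_
    exact (hlc.continuousOn.inv₀ fun g hg => (hl' g hg.2 (hne g hg)).ne').smul continuousOn_id
  have hPconv : Convex ℝ P := by
    intro g hg g' hg' s t hs ht hst
    refine ⟨hΦ.add _ (hΦ.smul s hs g hg.1) _ (hΦ.smul t ht g' hg'.1), ?_⟩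
    rw [map_add, map_smul, map_smul, hg.2, hg'.2, smul_eq_mul, smul_eq_mul, mul_one, mul_one, hst]
  obtain ⟨y, hy⟩ := h7 F ev hev P hPc hPconv ⟨_, hmem g₀ hg₀ hg₀'⟩ fun g hg => hT g hg.1 (hP0 g hg)
  refine ⟨y, fun g hg hg0 => ?_⟩
  have h1 := hy _ (hmem g hg hg0)
  rw [map_smul, Pi.smul_apply, smul_eq_mul] at h1
  exact (mul_pos_iff_of_pos_left (inv_pos.mpr (hl' g hg hg0))).mp h1

end T4b

end C32
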