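import Pool.Agent.Lib.MP_7cdc3e_gt.C.T4b.Spec

/-!
# MP_7cdc3e_gt, C32, T4b: compact convex sets of functions of rank one (`S_A7T`)
-/

set_option autoImplicit false

open Set AS TightRP TightRP.C3

namespace C32

namespace T4b

/-- `Bas3` is invariant under maps which induce bijections -/
theorem a7T_of_pull {X Y : Type} [MetricSpace X] [MetricSpace Y] {Γ : Subgroup (X ≃ᵢ X)}
    {Γ' : Subgroup (Y ≃ᵢ Y)} {C : Set X} {C' : Set Y} {f : X → Y} (hf : Adm Γ ∅ C Γ' ∅ C' f)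
    {a : H Γ' ∅ 1 C'} {c : H Γ' ∅ 2 C'} (hb : ∀ n, Function.Bijective (pull f hf n))
    (h : Bas3 Γ' C' a c) : Bas3 Γ C (pull f hf 1 a) (pull f hf 2 c) := by
  obtain ⟨h1, h2, h3, h4, h5, h6, h7⟩ := h
  refine ⟨fun x => ?_, fun h0 => ?_, fun x => ?_, fun h0 => ?_, fun x => ?_, fun h0 => ?_,
    fun n x => ?_⟩
  · obtain ⟨y, rfl⟩ := (hb 0).2 x
    rcases h1 y with rfl | rfl
    · exact Or.inl (map_zero _)
    · exact Or.inr (P33.pull_one hf)
  · rw [← P33.pull_one hf, ← map_zero (pull f hf 0)] at h0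
    exact h2 ((hb 0).1 h0)
  · obtain ⟨y, rfl⟩ := (hb 1).2 x
    rcases h3 y with rfl | rfl
    · exact Or.inl (map_zero _)
    · exact Or.inr rfl
  · rw [← map_zero (pull f hf 1)] at h0
    exact h4 ((hb 1).1 h0)
  · obtain ⟨y, rfl⟩ := (hb 2).2 x
    rcases h5 y with rfl | rfl
    · exact Or.inl (map_zero _)
    · exact Or.inr rfl
  · rw [← map_zero (pull f hf 2)] at h0
    exact h6 ((hb 2).1 h0)
  · obtain ⟨y, rfl⟩ := (hb (n + 3)).2 x
    rw [h7 n y, map_zero]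

/-- the evaluation is linear in the function -/
theorem a7T_ev (ev : W →ₗ[ℝ] (RP3 → ℝ)) (g : W) (z : RP3) :
    ev g z = ∑ i, (EuclideanSpace.basisFun (Fin 10) ℝ).toBasis.repr g i *
      ev ((EuclideanSpace.basisFun (Fin 10) ℝ).toBasis i) z := by
  conv_lhs => rw [← (EuclideanSpace.basisFun (Fin 10) ℝ).toBasis.sum_repr g]
  rw [map_sum, Finset.sum_apply]
  refine Finset.sum_congr rfl fun i _ => ?_
  rw [map_smul, Pi.smul_apply, smul_eq_mul]

theorem a7T_repr (i : Fin 10) :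
    Continuous fun g : W => (EuclideanSpace.basisFun (Fin 10) ℝ).toBasis.repr g i :=
  ((EuclideanSpace.basisFun (Fin 10) ℝ).toBasis.coord i).continuous_of_finiteDimensional

theorem a7T_cont {F : Type} [Field F] {ev : W →ₗ[ℝ] (RP3 → ℝ)} (h : CSys F ev) :
    ContinuousOn (fun q : W × E4 => ev q.1 (pj q.2)) (Set.univ ×ˢ Sp) := by
  have h1 : (fun q : W × E4 => ev q.1 (pj q.2)) = fun q : W × E4 =>
      ∑ i, (EuclideanSpace.basisFun (Fin 10) ℝ).toBasis.repr q.1 i *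
        ev ((EuclideanSpace.basisFun (Fin 10) ℝ).toBasis i) (pj q.2) := by
    funext q
    exact a7T_ev ev q.1 (pj q.2)
  rw [h1]
  refine continuousOn_finsetSum _ fun i _ => ContinuousOn.mul ?_ ?_
  · exact ((a7T_repr i).comp continuous_fst).continuousOn
  · exact (h.cont _).comp_continuousOn (pj_cont.comp continuousOn_snd fun q hq => hq.2)

theorem tA7T (wb : W1b) (w3 : W3a) (hB : S_B3) (hRP : R3.S_RP) : S_A7T := by
  intro F _ ev hev P hP hPc hPn hPT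
  by_contra hcon
  have hz : ∀ y, ∃ g ∈ P, ev g y = 0 := by
    intro y
    by_contra hy
    apply hcon
    refine ⟨y, fun g hg => lt_of_le_of_ne ((hPT hg).1 y) fun h0 => hy ⟨g, hg, h0.symm⟩⟩
  let I : Set (W × E4) := {q | q.1 ∈ P ∧ q.2 ∈ Sp ∧ ev q.1 (pj q.2) = 0}
  have hIc : IsCompact I := by
    have h1 : I = (P ×ˢ Sp) ∩ (fun q : W × E4 => ev q.1 (pj q.2)) ⁻¹' {0} := by
      ext q
      exact ⟨fun hq => ⟨⟨hq.1, hq.2.1⟩, hq.2.2⟩, fun hq => ⟨hq.1.1, hq.1.2, hq.2⟩⟩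
    rw [h1]
    have h2 : ContinuousOn (fun q : W × E4 => ev q.1 (pj q.2)) (P ×ˢ Sp) :=
      (a7T_cont hev).mono fun q hq => ⟨trivial, hq.2⟩
    exact (hP.prod (isCompact_sphere (0 : E4) 1)).of_isClosed_subset
      (h2.preimage_isClosed_of_isClosed (hP.isClosed.prod Metric.isClosed_sphere)
        isClosed_singleton) Set.inter_subset_left
  have hI : Tot I P Sp := by
    refine ⟨hIc, fun q hq => ⟨hq.1, neg_mem_Sp hq.2.1, ?_⟩, fun q hq => hq.1, fun q hq => hq.2.1,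
      hP, R3.cs_S R3.gp_Pm⟩
    show ev q.1 (pj (-q.2)) = 0
    rw [pj_neg hq.2.1]
    exact hq.2.2
  have hA2 : Adm (LN.PX W) ∅ I (Pm E4) ∅ Sp Prod.snd := adm_prj1 hI.m2
  -- the second projection
  have hb : ∀ n, Function.Bijective (pull Prod.snd hA2 n) := by
    refine hI.vb2 wb (fun x hx => ?_) hA2
    have h1 : {b | (b, x) ∈ I} = P ∩ {g | ev g (pj x) = 0} := by
      ext b
      exact ⟨fun hb => ⟨hb.1, hb.2.2⟩, fun hb => ⟨hb.1, hx, hb.2⟩⟩
    rw [h1]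
    have h2 : Continuous fun g : W => ev g (pj x) :=
      ((LinearMap.proj (pj x)).comp ev : W →ₗ[ℝ] ℝ).continuous_of_finiteDimensional
    refine convex_acy (hP.inter_right (isClosed_eq h2 continuous_const)) ?_ (hPc.inter ?_)
    · obtain ⟨g, hg, hg0⟩ := hz (pj x)
      exact ⟨g, hg, hg0⟩
    · intro g hg g' hg' s t _ _ _
      show ev (s • g + t • g') (pj x) = 0
      have e1 : ev g (pj x) = 0 := hg
      have e2 : ev g' (pj x) = 0 := hg'
      rw [map_add, map_smul, map_smul, Pi.add_apply, Pi.smul_apply, Pi.smul_apply, e1, e2,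
        smul_zero, smul_zero, add_zero]
  have hne : pull Prod.snd hA2 3 (ap 3 Sp zero_notMem_Sp) ≠ 0 := by
    intro h0
    rw [← map_zero (pull Prod.snd hA2 3)] at h0
    exact hRP.1 ((hb 3).1 h0)
  -- the fibres of the first projection
  have hfib : ∀ p ∈ P, ∀ (O : Set (W × E4)), O = {p} ×ˢ up (Zr ev p) → ∀ hO : O ⊆ I,
      Bas3 (LN.PX W) O (res hO 1 (pull Prod.snd hA2 1 (ap 1 Sp zero_notMem_Sp)))
        (res hO 2 (pull Prod.snd hA2 2 (ap 2 Sp zero_notMem_Sp))) := by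
    rintro p hp O rfl hO
    have hA3 : Adm (LN.PX W) ∅ (({p} : Set W) ×ˢ up (Zr ev p)) (Pm E4) ∅ (up (Zr ev p)) Prod.snd :=
      adm_prj1 fun _ hq => hq.2
    have h1 := a7T_of_pull hA3 (slice1_bij p (up (Zr ev p))) (hB F ev hev p (hPT hp))
    rw [res_pull hA2 hA3 hO (up_sub _), res_pull hA2 hA3 hO (up_sub _),
      res_ap 1 zero_notMem_Sp (up_sub _) (zero_notMem_up _),
      res_ap 2 zero_notMem_Sp (up_sub _) (zero_notMem_up _)]
    exact h1
  have hov : ∀ p ∈ P, ov I Prod.fst {p} = {p} ×ˢ up (Zr ev p) := by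
    intro p hp
    rw [ov_fst]
    have h1 : {x | (p, x) ∈ I} = up (Zr ev p) := by
      ext x
      exact ⟨fun hx => ⟨hx.2.1, hx.2.2⟩, fun hx => ⟨hp, hx.1, hx.2⟩⟩
    rw [h1]
  have h3 := (w3 (W × E4) W (LN.PX W) ∅ I ∅ P Prod.fst hI.fib1
    (pull Prod.snd hA2 1 (ap 1 Sp zero_notMem_Sp)) (pull Prod.snd hA2 2 (ap 2 Sp zero_notMem_Sp))
    (fun p hp _ => hfib p hp _ (hov p hp) _) P hP subset_rfl).2.2 1
  have hac : Acy (⊥ : Subgroup (W ≃ᵢ W)) P := convex_acy hP hPn hPc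
  have hall : ∀ x y : H (LN.PX W) ∅ 3 (ov I Prod.fst P), x = y := by
    intro x y
    obtain ⟨⟨z1, z2, z3⟩, rfl⟩ := h3.2 x
    obtain ⟨⟨y1, y2, y3⟩, rfl⟩ := h3.2 y
    rw [hac.2.2 2 z1, hac.2.2 1 z2, hac.2.2 0 z3, hac.2.2 2 y1, hac.2.2 1 y2, hac.2.2 0 y3]
  have key : ∀ E' : Set (W × E4), E' = I → (∀ x y : H (LN.PX W) ∅ 3 E', x = y) →
      ∀ x y : H (LN.PX W) ∅ 3 I, x = y := by
    rintro E' rfl h
    exact h
  exact hne (key _ hI.ov1 hall _ _)

end T4b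

end C32
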