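import Pool.Agent.Lib.MP_7cdc3e_gt.C.T4b.Spec
import Pool.Agent.Lib.AS.GysC
import Pool.Agent.Lib.AS.RPn

/-!
# MP_7cdc3e_gt, C32, T4b: the zero set of a function of rank one has the basis `1, a, a²`
-/

set_option autoImplicit false

open Set AS TightRP TightRP.C3

namespace C32

namespace T4b

theorem tB3 (hGen : T0.XGen) (hTop : T0.XTop) (hEv : T0.XEv) (hPow : T0.XPow) : S_B3 := by
  intro F _ ev hC g hg
  obtain ⟨hgC, hg0, hz, hE⟩ := hg
  have hV : IsOpen {x | 0 < ev g x} := isOpen_lt continuous_const (hC.cont g)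
  have hcompl : Zr ev g = {x | 0 < ev g x}ᶜ := by
    ext x
    show ev g x = 0 ↔ ¬ 0 < ev g x
    rw [not_lt]
    exact ⟨fun h => h.le, fun h => le_antisymm h (hgC x)⟩
  have hcl : IsClosed (Zr ev g) := by
    rw [hcompl]
    exact hV.isClosed_compl
  have hneg : Zr ev g = {x | 0 ≤ ev (-g) x} := by
    ext x
    show ev g x = 0 ↔ 0 ≤ ev (-g) x
    rw [map_neg]
    show ev g x = 0 ↔ 0 ≤ -(ev g x)
    have := hgC x
    constructor
    · intro h
      rw [h, neg_zero]
    · intro h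
      linarith
  have hgen : R3.Gen (up (Zr ev g)) := by
    rw [hneg]
    exact hGen F ev hC (-g)
  have h2 : ap 2 (up (Zr ev g)) (zero_notMem_up _) ≠ 0 := by
    have h : ∀ A : Set RP3, A = {x | 0 < ev g x}ᶜ → ap 2 (up A) (zero_notMem_up A) ≠ 0 := by
      rintro A rfl
      exact hEv _ hV hE
    exact h _ hcompl
  have h1 : ap 1 (up (Zr ev g)) (zero_notMem_up _) ≠ 0 :=
    fun h => h2 (hPow _ 1 2 (by norm_num) h)
  have hne : Zr ev g ≠ univ := by
    intro h
    apply hg0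
    apply hC.inj
    funext x
    have hx : x ∈ Zr ev g := by
      rw [h]
      trivial
    rw [map_zero]
    exact hx
  have hnon : (up (Zr ev g)).Nonempty := by
    obtain ⟨z, hz'⟩ := hz
    obtain ⟨x, hx, rfl⟩ := pj_surj z
    exact ⟨x, hx, hz'⟩
  refine ⟨?_, (okN2 E4 (Pm E4) (up (Zr ev g))).2 hnon, ?_, h1, ?_, h2, ?_⟩
  · intro x
    rw [← ap_zero_eq (zero_notMem_up _)]
    exact hgen _ 0 x
  · exact fun x => hgen _ 1 x
  · exact fun x => hgen _ 2 x
  · exact fun n x => hTop (Zr ev g) (n + 3) hcl (Or.inr ⟨by omega, hne⟩) x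

end T4b

end C32
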