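import Pool.Agent.Lib.MP_7cdc3e_gt.C.T4b.Spec

/-!
# MP_7cdc3e_gt, C32, T4b, Bet: the evaluations at the points of a compact set
-/

set_option autoImplicit false

open Set AS TightRP TightRP.C3

namespace C32

namespace T4b

theorem tBet : S_Bet := by
  intro M _ K _ _ _ ev h H Q hQ hpos
  refine ⟨?_, fun e ⟨y, hy, he⟩ => subset_closure ⟨y, hpos y hy, he⟩⟩
  let b := Module.finBasis ℝ K
  let c : Fin (Module.finrank ℝ K) → (K →L[ℝ] ℝ) := fun i => LinearMap.toContinuousLinearMap (b.coord i)
  let g : M → (K →L[ℝ] ℝ) := fun y => (ev h y)⁻¹ • ∑ i, ev (b i) y • c i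
  have hg : ∀ y k, g y k = ev k y / ev h y := by
    intro y k
    have h1 : ∀ i, c i k = b.repr k i := fun i => rfl
    have h2 : g y k = (ev h y)⁻¹ * ∑ i, ev (b i) y * b.repr k i := by
      change ((ev h y)⁻¹ • ∑ i, ev (b i) y • c i) k = _
      rw [ContinuousLinearMap.smul_apply, ContinuousLinearMap.sum_apply, smul_eq_mul]
      rfl
    have h3 : ev k y = ∑ i, ev (b i) y * b.repr k i := by
      conv_lhs => rw [← b.sum_repr k]
      rw [map_sum, Finset.sum_apply]
      refine Finset.sum_congr rfl fun i _ => ?_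
      rw [map_smul, Pi.smul_apply, smul_eq_mul, mul_comm]
    rw [h2, ← h3, inv_mul_eq_div]
  have hcont : ContinuousOn g Q := by
    refine ContinuousOn.smul ((H.cont h).continuousOn.inv₀ fun y hy => (hpos y hy).ne') ?_
    exact (continuous_finset_sum _ fun i _ => (H.cont (b i)).smul continuous_const).continuousOn
  have himg : {e : K →L[ℝ] ℝ | ∃ y ∈ Q, ∀ k, e k = ev k y / ev h y} = g '' Q := by
    ext e
    constructor
    · rintro ⟨y, hy, he⟩
      exact ⟨y, hy, ContinuousLinearMap.ext fun k => by rw [hg, he]⟩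
    · rintro ⟨y, hy, rfl⟩
      exact ⟨y, hy, hg y⟩
  rw [himg]
  exact hQ.image_of_continuousOn hcont

end T4b

end C32
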