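import Pool.Agent.Lib.MP_7cdc3e_gt.C.T4b.Spec

/-!
# MP_7cdc3e_gt, C32, T4b: caps, one-sided version
-/

set_option autoImplicit false

open Set AS TightRP TightRP.C3

namespace C32

namespace T4b

theorem tCap : S_Cap := by
  intro M _ K _ _ _ ev h H Y T hY hT hTB hTY ε hε
  have hProp : ProperSpace (K →L[ℝ] ℝ) := FiniteDimensional.proper_real _
  -- the compact convex set
  let A : Set ((K →L[ℝ] ℝ) × ℝ) := convexHull ℝ ((Bs ev h ×ˢ {0}) ∪ (T ×ˢ {1}))
  have hA : IsCompact A :=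
    compact_hull (((Bs_compact H).prod isCompact_singleton).union (hT.prod isCompact_singleton))
  have hAG : A ⊆ {z : (K →L[ℝ] ℝ) × ℝ | z.1 ∈ Bs ev h ∧ (z.1 ∈ Y → z.2 ≤ 0)} := by
    refine convexHull_min ?_ ?_
    · rintro ⟨x, t⟩ (⟨hx, ht⟩ | ⟨hx, ht⟩)
      · have ht' : t = 0 := ht
        exact ⟨hx, fun _ => ht'.le⟩
      · refine ⟨hTB hx, fun hxY => ?_⟩
        have : x ∈ T ∩ Y := ⟨hx, hxY⟩
        rw [hTY] at this
        exact this.elim
    · rw [convex_iff_forall_pos]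
      rintro ⟨x, t⟩ ⟨hx, hxt⟩ ⟨x', t'⟩ ⟨hx', hxt'⟩ a b ha hb hab
      refine ⟨Bs_convex hx hx' ha.le hb.le hab, fun hz => ?_⟩
      have hop : a • x + b • x' ∈ openSegment ℝ x x' := ⟨a, b, ha, hb, hab, rfl⟩
      have hxY : x ∈ Y := hY.ext.left_mem_of_mem_openSegment hx hx' hz hop
      have hxY' : x' ∈ Y := hY.ext.right_mem_of_mem_openSegment hx hx' hz hop
      change a * t + b * t' ≤ 0
      have h1 : t ≤ 0 := hxt hxY
      have h2 : t' ≤ 0 := hxt' hxY'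
      nlinarith
  have hd : Disjoint A (Y ×ˢ {ε}) := by
    rw [Set.disjoint_left]
    rintro ⟨x, t⟩ hz ⟨hzY, hzt⟩
    have h1 : t = ε := hzt
    have h2 : t ≤ 0 := (hAG hz).2 hzY
    linarith
  obtain ⟨f, u, v, h1, h2, h3⟩ := geometric_hahn_banach_compact_closed (convex_convexHull ℝ _) hA
    (hY.cvx.prod (convex_singleton ε)) (hY.cl.prod isClosed_singleton) hd
  obtain ⟨k, hk⟩ := dual_eval (f.comp (ContinuousLinearMap.inl ℝ (K →L[ℝ] ℝ) ℝ))
  obtain ⟨β, hβ⟩ : ∃ β : ℝ, β = f (0, 1) := ⟨_, rfl⟩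
  have hf : ∀ (x : K →L[ℝ] ℝ) (t : ℝ), f (x, t) = x k + t * β := by
    intro x t
    have e1 : ((x, t) : (K →L[ℝ] ℝ) × ℝ) = (x, 0) + t • (0, 1) := by
      ext <;> simp
    have e2 : f (x, 0) = x k := by
      rw [← hk]
      simp
    rw [e1, map_add, map_smul, e2, ← hβ, smul_eq_mul]
  have hB0 : ∀ e ∈ Bs ev h, e k < u := by
    intro e he
    have h4 := h1 (e, 0) (subset_convexHull ℝ _ (Or.inl ⟨he, rfl⟩))
    rw [hf] at h4
    linarith
  have hT1 : ∀ e ∈ T, e k + β < u := by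
    intro e he
    have h4 := h1 (e, 1) (subset_convexHull ℝ _ (Or.inr ⟨he, rfl⟩))
    rw [hf] at h4
    linarith
  have hYv : ∀ e ∈ Y, v < e k + ε * β := by
    intro e he
    have h4 := h3 (e, ε) ⟨he, rfl⟩
    rw [hf] at h4
    exact h4
  have hYB : Y ⊆ Bs ev h := hY.ext.subset
  have hβ0 : 0 < β := by
    obtain ⟨y, hy⟩ := hY.ne
    have h4 := hB0 y (hYB hy)
    have h5 := hYv y hy
    have h6 : 0 < ε * β := by linarith
    exact pos_of_mul_pos_right h6 hε.le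
  have hφ : ∀ e ∈ Bs ev h, e (β⁻¹ • (((u + v) / 2) • h - k)) = β⁻¹ * ((u + v) / 2 - e k) := by
    intro e he
    rw [map_smul, map_sub, map_smul, he.2, smul_eq_mul, smul_eq_mul, mul_one]
  refine ⟨β⁻¹ • (((u + v) / 2) • h - k), fun e he => ?_, fun e he => ?_, fun e he => ?_⟩
  · rw [hφ e he]
    have := hB0 e he
    exact mul_pos (inv_pos.mpr hβ0) (by linarith)
  · rw [hφ e (hTB he)]
    have := hT1 e he
    rw [← div_eq_inv_mul, lt_div_iff₀ hβ0]
    linarith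
  · rw [hφ e (hYB he)]
    have := hYv e he
    rw [← div_eq_inv_mul, div_lt_iff₀ hβ0]
    linarith

end T4b

end C32
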