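import Pool.Agent.Lib.MP_7cdc3e_gt.C.T4b.Spec
import Pool.Agent.Lib.AS.RPn

/-!
# MP_7cdc3e_gt, C32, T4b: projective space is not the union of three closed even sets (helper50)
-/

set_option autoImplicit false

open Set AS TightRP TightRP.C3

namespace C32

namespace T4b

theorem tCov (h1 : T0.XOne) (h2 : AS.R3.S_RP) : S_Cov := by
  intro A B C hA hB hC eA eB eC hU
  have a1 := (h1 A hA).mpr eA
  have b1 := (h1 B hB).mpr eB
  have c1 := (h1 C hC).mpr eC
  have h3 : ap 2 (up (A ∪ B)) (zero_notMem_up (A ∪ B)) = 0 :=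
    ap_union (p := 1) (q := 1) rfl (up_ok hA) (up_ok hB) (C3.up_union A B) _ _ _ a1 b1
  have hS : AS.R3.S = up (A ∪ B) ∪ up C := by
    rw [← C3.up_union, hU, C3.up_univ]
  exact h2.1 (ap_union (p := 2) (q := 1) rfl (up_ok (hA.union hB)) (up_ok hC) hS _ _ _ h3 c1)

end T4b

end C32
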