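import Pool.Agent.Lib.MP_7cdc3e_gt.C.T4b.Spec

/-!
# MP_7cdc3e_gt, C32, T4b: coordinates around a relative interior point (helper18)
-/

set_option autoImplicit false

open Set AS TightRP TightRP.C3

namespace C32

namespace T4b

section

variable {K : Type} [NormedAddCommGroup K] [NormedSpace ℝ K] [FiniteDimensional ℝ K]

private theorem Crd_zero {h : K} {Y : Set (K →L[ℝ] ℝ)} (hY : ∀ e ∈ Y, e h = 1)
    {v : K →L[ℝ] ℝ} (hv : v ∈ vectorSpan ℝ Y) : v h = 0 := by
  have h1 : vectorSpan ℝ Y ≤ LinearMap.ker (ContinuousLinearMap.apply ℝ ℝ h).toLinearMap := by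
    rw [vectorSpan_def, Submodule.span_le]
    rintro _ ⟨e, he, e', he', rfl⟩
    show (e - e') h = 0
    rw [sub_apply, hY e he, hY e' he', sub_self]
  exact h1 hv

/-- elements of `K` dual to a basis of a subspace of the dual space -/
private theorem Crd_dual (V : Submodule ℝ (K →L[ℝ] ℝ)) {j : ℕ} (b : Module.Basis (Fin j) ℝ V) :
    ∃ m : Fin j → K, ∀ i, ∀ v : V, (v : K →L[ℝ] ℝ) (m i) = b.coord i v := by
  have h1 : ∀ i, ∃ m : K, ∀ v : V, (v : K →L[ℝ] ℝ) m = b.coord i v := by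
    intro i
    obtain ⟨g, hg⟩ := LinearMap.exists_extend (b.coord i)
    obtain ⟨m, hm⟩ := dual_eval (LinearMap.toContinuousLinearMap g)
    refine ⟨m, fun v => ?_⟩
    rw [← hm]
    have h2 := congrArg (fun f : V →ₗ[ℝ] ℝ => f v) hg
    exact h2
  choose m hm using h1
  exact ⟨m, hm⟩

end

theorem tCrd (hri : S_RI) : S_Crd := by
  intro K _ _ _ h Y hYc hY ψ hψ
  have hψY : ψ ∈ Y := hψ.1
  have hψh := hY ψ hψY
  obtain ⟨V, hV⟩ : ∃ V : Submodule ℝ (K →L[ℝ] ℝ), V = vectorSpan ℝ Y := ⟨_, rfl⟩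
  have : Module.Free ℝ V := Module.Free.of_divisionRing ℝ V
  let b := Module.finBasis ℝ V
  obtain ⟨m, hm⟩ := Crd_dual V b
  have hv : ∀ i, ∀ v : V,
      (v : K →L[ℝ] ℝ) (m i - ψ (m i) • h) = b.coord i v := by
    intro i v
    rw [map_sub, map_smul, Crd_zero hY (hV ▸ v.2 : (v : K →L[ℝ] ℝ) ∈ vectorSpan ℝ Y), smul_zero, sub_zero, hm]
  have h0 : ∀ i, ψ (m i - ψ (m i) • h) = 0 := by
    intro i
    rw [map_sub, map_smul, hψh, smul_eq_mul, mul_one, sub_self]
  refine ⟨_, fun i => m i - ψ (m i) • h, h0, ?_, ?_⟩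
  · intro u hu
    obtain ⟨t, ht, he⟩ := (hri (K →L[ℝ] ℝ) Y hYc).2.1 ψ hψ (b.equivFun.symm u : V)
      (hV ▸ (b.equivFun.symm u : V).2)
    refine ⟨_, he, ?_⟩
    have h1 : ∀ i, (ψ + t • ((b.equivFun.symm u : V) : K →L[ℝ] ℝ))
        (m i - ψ (m i) • h) = t * u i := by
      intro i
      rw [add_apply, h0 i, zero_add, smul_apply, hv i,
        smul_eq_mul]
      congr 1
      have h2 := congrFun (b.equivFun.apply_symm_apply u) i
      rw [Module.Basis.equivFun_apply] at h2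
      exact h2
    simp only [h1]
    have h3 : ∑ i, u i * (t * u i) = t * ∑ i, u i ^ 2 := by
      rw [Finset.mul_sum]
      exact Finset.sum_congr rfl fun i _ => by ring
    rw [h3]
    refine mul_pos ht ?_
    obtain ⟨i, hi⟩ : ∃ i, u i ≠ 0 := by
      by_contra hc
      push Not at hc
      exact hu (funext hc)
    exact Finset.sum_pos' (fun i _ => sq_nonneg _) ⟨i, Finset.mem_univ i, by positivity⟩
  · intro e he hz
    have h1 : e - ψ ∈ V := hV ▸ vsub_mem_vectorSpan ℝ he hψY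
    have h2 : (⟨e - ψ, h1⟩ : V) = 0 := by
      rw [← b.forall_coord_eq_zero_iff]
      intro i
      rw [← hv i]
      show (e - ψ) (m i - ψ (m i) • h) = 0
      have h3 : e (m i - ψ (m i) • h) = 0 := hz i
      rw [sub_apply, h0 i, h3, sub_zero]
    have h3 : e - ψ = 0 := congrArg Subtype.val h2
    exact sub_eq_zero.1 h3

end T4b

end C32
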