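import Pool.Agent.Lib.MP_7cdc3e_gt.C.T4b.Spec

/-!
# MP_7cdc3e_gt, C32, T4b, EvN: decreasing sequences of closed sets with even intersection
-/

set_option autoImplicit false

open Set AS TightRP TightRP.C3

namespace C32

namespace T4b

theorem tEvN : S_EvN := by
  intro C hC hanti ⟨U, hU, hev⟩
  set A : Set RP3 := ⋂ n, C n with hA
  have hAcl : IsClosed A := isClosed_iInter hC
  set P : Set E4 := {x | x ∈ up A ∧ -x ∉ U} with hP
  set N : Set E4 := {x | x ∈ up A ∧ x ∉ U} with hN
  have hPcl : IsClosed P := by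
    have h1 : P = up A ∩ (fun x : E4 => -x) ⁻¹' Uᶜ := rfl
    rw [h1]
    exact (up_closed hAcl).inter (hU.isClosed_compl.preimage continuous_neg)
  have hNcl : IsClosed N := (up_closed hAcl).inter hU.isClosed_compl
  have hneg : ∀ x : E4, x ∈ N ↔ -x ∈ P := by
    intro x
    constructor
    · rintro ⟨h1, h2⟩
      exact ⟨neg_mem_up h1, by rw [neg_neg]; exact h2⟩
    · rintro ⟨h1, h2⟩
      rw [neg_neg] at h2
      have h3 := neg_mem_up h1
      rw [neg_neg] at h3
      exact ⟨h3, h2⟩
  have hneg' : ∀ x : E4, x ∈ P ↔ -x ∈ N := by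
    intro x
    rw [hneg, neg_neg]
  have hPN : P = (fun x : E4 => -x) '' N := by
    ext x
    constructor
    · intro h1
      exact ⟨-x, (hneg' x).1 h1, neg_neg x⟩
    · rintro ⟨z, hz, rfl⟩
      exact (hneg z).1 hz
  have hNP : N = (fun x : E4 => -x) '' P := by
    ext x
    constructor
    · intro h1
      exact ⟨-x, (hneg x).1 h1, neg_neg x⟩
    · rintro ⟨z, hz, rfl⟩
      exact (hneg' z).1 hz
  have hiso : Isometry (fun x : E4 => -x) := (LinearIsometryEquiv.neg ℝ (E := E4)).isometry
  have hd1 : ∀ x : E4, Metric.infDist (-x) P = Metric.infDist x N := by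
    intro x
    conv_lhs => rw [hPN]
    exact Metric.infDist_image hiso
  have hd2 : ∀ x : E4, Metric.infDist (-x) N = Metric.infDist x P := by
    intro x
    conv_lhs => rw [hNP]
    exact Metric.infDist_image hiso
  set O : Set E4 := {x | Metric.infDist x P < Metric.infDist x N} with hO
  set O' : Set E4 := {x | Metric.infDist x N < Metric.infDist x P} with hO'
  have hOo : IsOpen O := isOpen_lt (Metric.continuous_infDist_pt P) (Metric.continuous_infDist_pt N)
  have hOo' : IsOpen O' :=
    isOpen_lt (Metric.continuous_infDist_pt N) (Metric.continuous_infDist_pt P)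
  have hdisj : ∀ x ∈ P, x ∉ N := by
    intro x h1 h2
    have h3 := hev x h1.1
    exact h2.2 (h3.2 h1.2)
  have hcov : up A ⊆ O ∪ O' := by
    intro x hx
    by_cases hxU : x ∈ U
    · have h1 : x ∈ P := ⟨hx, (hev x hx).1 hxU⟩
      left
      change Metric.infDist x P < Metric.infDist x N
      rw [Metric.infDist_zero_of_mem h1]
      exact (hNcl.notMem_iff_infDist_pos ⟨-x, (hneg' x).1 h1⟩).1 (hdisj x h1)
    · have h1 : x ∈ N := ⟨hx, hxU⟩
      right
      change Metric.infDist x N < Metric.infDist x P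
      rw [Metric.infDist_zero_of_mem h1]
      exact (hPcl.notMem_iff_infDist_pos ⟨-x, (hneg x).1 h1⟩).1 fun h2 => hdisj x h2 h1
  obtain ⟨n, hn⟩ : ∃ n, up (C n) ⊆ O ∪ O' := by
    by_contra hcon
    push Not at hcon
    obtain ⟨x, hx⟩ := IsCompact.nonempty_iInter_of_sequence_nonempty_isCompact_isClosed
      (fun n => up (C n) \ (O ∪ O')) (fun n x hx => ⟨up_mono (hanti (Nat.le_succ n)) hx.1, hx.2⟩)
      (fun n => by
        obtain ⟨x, hx, hx'⟩ := Set.not_subset.1 (hcon n)
        exact ⟨x, hx, hx'⟩)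
      ((up_compact (hC 0)).diff (hOo.union hOo'))
      (fun n => (up_closed (hC n)).sdiff (hOo.union hOo'))
    rw [Set.mem_iInter] at hx
    refine (hx 0).2 (hcov ⟨(hx 0).1.1, ?_⟩)
    rw [hA, Set.mem_iInter]
    exact fun n => (hx n).1.2
  refine ⟨n, O, hOo, fun x hx => ?_⟩
  have h1 : -x ∈ O ↔ x ∈ O' := by
    change Metric.infDist (-x) P < Metric.infDist (-x) N ↔ Metric.infDist x N < Metric.infDist x P
    rw [hd1, hd2]
  rw [h1]
  constructor
  · intro h2 h3
    exact lt_asymm (show Metric.infDist x P < Metric.infDist x N from h2) h3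
  · intro h2
    rcases hn hx with h3 | h3
    · exact h3
    · exact absurd h3 h2

end T4b

end C32
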