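import Pool.Agent.Lib.MP_7cdc3e_gt.C.T4b.Spec

/-!
# MP_7cdc3e_gt, C32, T4b: the filling argument (`S_FilT`)
-/

set_option autoImplicit false

open Set AS TightRP TightRP.C3

namespace C32

namespace T4b

/-- the first projection is admissible -/
theorem filT_adm1 {B : Type} [MetricSpace B] {E : Set (B × E4)} {P : Set B}
    (h : ∀ q ∈ E, q.1 ∈ P) : Adm (LN.PX B) ∅ E (⊥ : Subgroup (B ≃ᵢ B)) ∅ P Prod.fst :=
  ⟨h, fun _ _ hx => hx.elim, fun ε hε => ⟨ε, hε, fun _ _ _ _ hd =>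
    (le_max_left _ _).trans_lt (by rwa [Prod.dist_eq] at hd)⟩, LN.eqv_fst⟩

/-- closed half-spheres are acyclic -/
theorem filT_half {j : ℕ} {v : EuclideanSpace ℝ (Fin j)} (hv : v ≠ 0) :
    Acy (⊥ : Subgroup (EuclideanSpace ℝ (Fin j) ≃ᵢ EuclideanSpace ℝ (Fin j)))
      {b | b ∈ Metric.sphere (0 : EuclideanSpace ℝ (Fin j)) 1 ∧ 0 ≤ inner ℝ b v} := by
  have hn : 0 < ‖v‖ := norm_pos_iff.mpr hv
  have h1 : ‖(‖v‖⁻¹ • v)‖ = 1 := by
    rw [norm_smul, norm_inv, norm_norm]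
    exact inv_mul_cancel₀ hn.ne'
  have h2 := P33.hS_acy (⊤ : Submodule ℝ (EuclideanSpace ℝ (Fin j))) (v := ‖v‖⁻¹ • v)
    Submodule.mem_top h1
  have h3 : P33.hS (⊤ : Submodule ℝ (EuclideanSpace ℝ (Fin j))) (‖v‖⁻¹ • v) =
      {b | b ∈ Metric.sphere (0 : EuclideanSpace ℝ (Fin j)) 1 ∧ 0 ≤ inner ℝ b v} := by
    ext b
    have h4 : (0 ≤ inner ℝ (‖v‖⁻¹ • v) b) ↔ 0 ≤ inner ℝ b v := by
      rw [real_inner_smul_left, real_inner_comm]
      exact mul_nonneg_iff_of_pos_left (inv_pos.mpr hn)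
    constructor
    · rintro ⟨⟨_, h5⟩, h6⟩
      exact ⟨mem_sphere_zero_iff_norm.mpr h5, h4.mp h6⟩
    · rintro ⟨h5, h6⟩
      exact ⟨⟨Submodule.mem_top, mem_sphere_zero_iff_norm.mp h5⟩, h4.mpr h6⟩
  rwa [h3] at h2

theorem tFilT (wa : W1a) (wb : W1b) (hs : S_NSph) : S_FilT := by
  intro j m φ k η hj h
  let P : Set (EuclideanSpace ℝ (Fin j)) := Metric.sphere 0 1
  let X : Set E4 := {x | x ∈ Sp ∧ η ≤ k x}
  let I : Set (EuclideanSpace ℝ (Fin j) × E4) :=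
    {q | q.1 ∈ P ∧ q.2 ∈ Sp ∧ η ≤ inner ℝ q.1 (m q.2) - φ q.2}
  let I' : Set (EuclideanSpace ℝ (Fin j) × E4) := {q | q.1 ∈ P ∧ q.2 ∈ X ∧ 0 ≤ inner ℝ q.1 (m q.2)}
  have hP : IsCompact P := isCompact_sphere 0 1
  have hX : R3.Cs (Pm E4) X := by
    refine ⟨h.kc.preimage_isClosed_of_isClosed Metric.isClosed_sphere isClosed_Ici,
      fun x hx => hx.1, ivS_Pm.mpr fun x hx => ⟨neg_mem_Sp hx.1, ?_⟩⟩
    rw [h.ke]
    exact hx.2
  have hin : ContinuousOn (fun q : EuclideanSpace ℝ (Fin j) × E4 => (inner ℝ q.1 (m q.2) : ℝ))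
      (P ×ˢ Sp) :=
    continuousOn_fst.inner (h.mc.comp continuousOn_snd fun q hq => hq.2)
  have hIc : IsCompact I := by
    have h1 : ContinuousOn (fun q : EuclideanSpace ℝ (Fin j) × E4 =>
        (inner ℝ q.1 (m q.2) : ℝ) - φ q.2) (P ×ˢ Sp) :=
      hin.sub (h.pc.comp continuousOn_snd fun q hq => hq.2)
    have h2 : I = (P ×ˢ Sp) ∩ (fun q : EuclideanSpace ℝ (Fin j) × E4 =>
        (inner ℝ q.1 (m q.2) : ℝ) - φ q.2) ⁻¹' (Set.Ici η) := by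
      ext q
      exact ⟨fun hq => ⟨⟨hq.1, hq.2.1⟩, hq.2.2⟩, fun hq => ⟨hq.1.1, hq.1.2, hq.2⟩⟩
    rw [h2]
    exact (hP.prod (isCompact_sphere (0 : E4) 1)).of_isClosed_subset
      (h1.preimage_isClosed_of_isClosed (Metric.isClosed_sphere.prod Metric.isClosed_sphere)
        isClosed_Ici) Set.inter_subset_left
  have hIc' : IsCompact I' := by
    have h2 : I' = (P ×ˢ X) ∩ (fun q : EuclideanSpace ℝ (Fin j) × E4 =>
        (inner ℝ q.1 (m q.2) : ℝ)) ⁻¹' (Set.Ici 0) := by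
      ext q
      exact ⟨fun hq => ⟨⟨hq.1, hq.2.1⟩, hq.2.2⟩, fun hq => ⟨hq.1.1, hq.1.2, hq.2⟩⟩
    rw [h2]
    have h3 : ContinuousOn (fun q : EuclideanSpace ℝ (Fin j) × E4 => (inner ℝ q.1 (m q.2) : ℝ))
        (P ×ˢ X) := hin.mono fun q hq => ⟨hq.1, hq.2.1⟩
    exact (hP.prod hX.cpt).of_isClosed_subset
      (h3.preimage_isClosed_of_isClosed (Metric.isClosed_sphere.prod hX.cl) isClosed_Ici)
        Set.inter_subset_left
  have hI : Tot I P X := by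
    refine ⟨hIc, fun q hq => ⟨hq.1, neg_mem_Sp hq.2.1, ?_⟩, fun q hq => hq.1, fun q hq =>
      ⟨hq.2.1, hq.2.2.trans (h.ine q.1 hq.1 q.2 hq.2.1)⟩, hP, hX⟩
    show η ≤ inner ℝ q.1 (m (-q.2)) - φ (-q.2)
    rw [h.me, h.pe]
    exact hq.2.2
  have hI' : Tot I' P X := by
    refine ⟨hIc', fun q hq => ⟨hq.1, ⟨neg_mem_Sp hq.2.1.1, ?_⟩, ?_⟩, fun q hq => hq.1,
      fun q hq => hq.2.1, hP, hX⟩
    · show η ≤ k (-q.2)
      rw [h.ke]
      exact hq.2.1.2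
    · show 0 ≤ inner ℝ q.1 (m (-q.2))
      rw [h.me]
      exact hq.2.2
  have hsub : I ⊆ I' := by
    intro q hq
    refine ⟨hq.1, hI.m2 q hq, ?_⟩
    have h1 := h.nn q.2 hq.2.1
    have h2 := hq.2.2
    have h3 := h.eta
    linarith
  have hA := filT_adm1 (E := I) hI.m1
  have hA' := filT_adm1 (E := I') hI'.m1
  have hb : ∀ n, Function.Bijective (pull Prod.fst hA n) := by
    refine hI.vb1 wa (fun p hp => ?_) hA
    have h1 : {x | (p, x) ∈ I} = {x | x ∈ Sp ∧ η ≤ inner ℝ p (m x) - φ x} := by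
      ext x
      exact ⟨fun hx => ⟨hx.2.1, hx.2.2⟩, fun hx => ⟨hp, hx.1, hx.2⟩⟩
    rw [h1]
    exact h.aI p hp
  have hacy : Acy (LN.PX (EuclideanSpace ℝ (Fin j))) I' := by
    have hA2 : Adm (LN.PX (EuclideanSpace ℝ (Fin j))) ∅ I' (Pm E4) ∅ X Prod.snd :=
      adm_prj1 hI'.m2
    refine P33.Acy.of_pull hA2 (hI'.vb2 wb (fun x hx => ?_) hA2) h.aA
    have h1 : {b | (b, x) ∈ I'} =
        {b | b ∈ Metric.sphere (0 : EuclideanSpace ℝ (Fin j)) 1 ∧ 0 ≤ inner ℝ b (m x)} := by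
      ext b
      exact ⟨fun hb => ⟨hb.1, hb.2.2⟩, fun hb => ⟨hb.1, hx, hb.2⟩⟩
    rw [h1]
    exact filT_half (h.mz x hx.1 hx.2)
  have hne : P.Nonempty := ⟨EuclideanSpace.single ⟨0, by omega⟩ 1, by
    rw [mem_sphere_zero_iff_norm]
    simp⟩
  exact hs j hj (acy_of_factor okN2 hsub Prod.fst hA hA' (fun n => (hb n).1) hacy hne)

end T4b

end C32
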