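import Pool.Agent.Lib.MP_7cdc3e_gt.C.T4b.Spec

/-!
# MP_7cdc3e_gt, C32, T4b: filling

A face of the dual cone which is missed by an odd compact set consists of limits of evaluations.
-/

set_option autoImplicit false

open Set AS TightRP TightRP.C3

namespace C32

namespace T4b

/-- uniform positivity over a compact set -/
theorem fill_cmp {α β : Type} [TopologicalSpace α] {S : Set α} (hS : IsCompact S) {T : Set β}
    (f : α → β → ℝ) (hf : ∀ y ∈ T, Continuous fun x => f x y)
    (h : ∀ x ∈ S, ∃ y ∈ T, 0 < f x y) : ∃ δ : ℝ, 0 < δ ∧ ∀ x ∈ S, ∃ y ∈ T, δ ≤ f x y := by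
  let O : ℕ → Set α := fun n => {x | ∃ y ∈ T, 1 / ((n : ℝ) + 1) < f x y}
  have hO : ∀ n, IsOpen (O n) := by
    intro n
    have h1 : O n = ⋃ y ∈ T, {x | 1 / ((n : ℝ) + 1) < f x y} := by
      ext x
      simp [O]
    rw [h1]
    exact isOpen_biUnion fun y hy => isOpen_lt continuous_const (hf y hy)
  have hmono : Monotone O := by
    intro a b hab x hx
    obtain ⟨y, hy, h1⟩ := hx
    refine ⟨y, hy, lt_of_le_of_lt ?_ h1⟩
    have h2 : (a : ℝ) ≤ b := by exact_mod_cast hab
    apply one_div_le_one_div_of_le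
    · positivity
    · linarith
  obtain ⟨n, hn⟩ := hS.elim_directed_cover O hO (by
    intro x hx
    obtain ⟨y, hy, h1⟩ := h x hx
    obtain ⟨n, hn⟩ := exists_nat_one_div_lt h1
    exact mem_iUnion.mpr ⟨n, y, hy, hn⟩) hmono.directed_le
  exact ⟨1 / ((n : ℝ) + 1), by positivity, fun x hx => by
    obtain ⟨y, hy, h1⟩ := hn hx
    exact ⟨y, hy, h1.le⟩⟩

theorem fill_pj (x : E4) : pj (-x) = pj x := by
  by_cases hx : x ∈ Sp
  · exact pj_neg hx
  · have h2 : -x ∉ Sp := fun h => hx (by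
      have := neg_mem_Sp h
      rwa [neg_neg] at this)
    unfold pj
    rw [dif_neg hx, dif_neg h2]

/-- even closed half-spaces are acyclic -/
theorem fill_acy (hHf : S_HfE) (hGen : T0.XGen) {F : Type} [Field F] {ev : W →ₗ[ℝ] (RP3 → ℝ)}
    (hs : CSys F ev) (g : W) {η : ℝ} (hη : 0 < η) (he : Even {y | 0 < ev g y})
    (hne : ∃ y, η ≤ ev g y) : Acy (Pm E4) (up {y | η ≤ ev g y}) := by
  obtain ⟨u, hu⟩ := hs.one
  have h1 : {y | η ≤ ev g y} = {y | 0 ≤ ev (g - η • u) y} := by
    ext y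
    change η ≤ ev g y ↔ 0 ≤ ev (g - η • u) y
    rw [map_sub, map_smul, hu]
    change η ≤ ev g y ↔ 0 ≤ ev g y - η * 1
    rw [mul_one, sub_nonneg]
  refine hHf _ (isClosed_le continuous_const (hs.cont g)) hne ?_ (he.mono fun y hy => ?_)
  · rw [h1]
    exact hGen F ev hs _
  · exact hη.trans_le hy

theorem tFill (hRI : S_RI) (hCap : S_Cap) (hCrd : S_Crd) (hBet : S_Bet) (hFil : S_FilT)
    (hHf : S_HfE) (hGen : T0.XGen) : S_Fill := by
  intro F _ ev hs K _ _ _ ι h H hLN Y hY Q hQc hQ hQY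
  have hred : RInt Y ⊆ E1 (ev.comp ι) h → Y ⊆ E1 (ev.comp ι) h := fun h1 =>
    ((hRI _ Y hY.cvx).2.2).trans (closure_minimal h1 isClosed_closure)
  refine hred fun ψ hψ => ?_
  by_contra hn
  obtain ⟨j, m, hm0, hm1, hm2⟩ := hCrd K h Y hY.cvx (fun e he => (hY.ext.subset he).2) ψ hψ
  have hψY : ψ ∈ Y := hψ.1
  have hj : 1 ≤ j := by
    by_contra hj
    obtain rfl : j = 0 := by omega
    have hYs : Y = {ψ} := by
      ext e
      constructor
      · intro he
        exact hm2 e he (fun i => i.elim0)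
      · rintro rfl
        exact hψY
    apply hn
    apply extreme_mem H
    rw [← isExtreme_singleton, ← hYs]
    exact hY.ext
  -- the bound `C0`
  obtain ⟨C0, hC0, hC0'⟩ : ∃ C0 : ℝ, 0 < C0 ∧ ∀ u : EuclideanSpace ℝ (Fin j), ‖u‖ = 1 → ∀ y,
      ∑ i, u i * ev (ι (m i)) y ≤ C0 * ev (ι h) y := by
    choose s hs0 hs1 using fun i => H.bd (m i)
    refine ⟨1 + ∑ i, s i, by
      have : 0 ≤ ∑ i, s i := Finset.sum_nonneg fun i _ => hs0 i
      linarith, fun u hu y => ?_⟩
    have h0 : 0 ≤ ev (ι h) y := H.nn y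
    calc ∑ i, u i * ev (ι (m i)) y ≤ ∑ i, s i * ev (ι h) y := by
          apply Finset.sum_le_sum
          intro i _
          have h1 : |u i| ≤ 1 := by
            have := PiLp.norm_apply_le u i
            rw [hu, Real.norm_eq_abs] at this
            exact this
          have h2 : |ev (ι (m i)) y| ≤ s i * ev (ι h) y := hs1 i y
          calc u i * ev (ι (m i)) y ≤ |u i * ev (ι (m i)) y| := le_abs_self _
            _ = |u i| * |ev (ι (m i)) y| := abs_mul _ _
            _ ≤ 1 * (s i * ev (ι h) y) := mul_le_mul h1 h2 (abs_nonneg _) zero_le_one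
            _ = s i * ev (ι h) y := one_mul _
      _ = (∑ i, s i) * ev (ι h) y := by rw [Finset.sum_mul]
      _ ≤ (1 + ∑ i, s i) * ev (ι h) y := by
          apply mul_le_mul_of_nonneg_right _ h0
          linarith
  -- `δ`
  obtain ⟨δ, hδ, hδ'⟩ : ∃ δ : ℝ, 0 < δ ∧
      ∀ u ∈ Metric.sphere (0 : EuclideanSpace ℝ (Fin j)) 1, ∃ e ∈ Y, δ ≤ ∑ i, u i * e (m i) := by
    refine fill_cmp (isCompact_sphere _ _) (fun (u : EuclideanSpace ℝ (Fin j))
      (e : K →L[ℝ] ℝ) => ∑ i, u i * e (m i)) (fun e _ => by fun_prop) fun u hu => ?_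
    obtain ⟨e, he, h1⟩ := hm1 u (fun h0 => by
      have h2 : u = 0 := by
        ext i
        exact congrFun h0 i
      rw [h2, mem_sphere_zero_iff_norm, norm_zero] at hu
      exact zero_ne_one hu)
    exact ⟨e, he, h1⟩
  -- the cap
  have hcpt : CompactSpace RP3 := cptRP3
  have hBet' := hBet RP3 K (ev.comp ι) h H Q hQc.isCompact (fun y hy => (hQY y hy).1)
  have hE1c := E1_compact H
  have hZc : IsClosed {e : K →L[ℝ] ℝ | ∀ i, e (m i) = 0} := by
    have h1 : {e : K →L[ℝ] ℝ | ∀ i, e (m i) = 0} = ⋂ i, {e : K →L[ℝ] ℝ | e (m i) = 0} := by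
      ext e
      simp
    rw [h1]
    exact isClosed_iInter fun i => isClosed_eq (continuous_eval (m i)) continuous_const
  obtain ⟨φ, hφ1, hφ2, hφ3⟩ := hCap RP3 K (ev.comp ι) h H Y
    ((E1 (ev.comp ι) h ∩ {e | ∀ i, e (m i) = 0}) ∪
      {e | ∃ y ∈ Q, ∀ k, e k = (ev.comp ι) k y / (ev.comp ι) h y}) hY
    ((hE1c.inter_right hZc).union hBet'.1)
    (union_subset (inter_subset_left.trans (E1_sub H)) (hBet'.2.trans (E1_sub H))) (by
      rw [eq_empty_iff_forall_notMem]
      rintro e ⟨h1 | ⟨y, hy, h1⟩, he⟩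
      · exact hn (hm2 e he h1.2 ▸ h1.1)
      · obtain ⟨k, hk⟩ := (hQY y hy).2 e he
        exact hk (h1 k)) (δ / (2 * C0)) (by positivity)
  have hT : ∀ y, 0 < ev (ι h) y → (∀ i, ev (ι (m i)) y = 0) ∨ y ∈ Q →
      ev (ι h) y < ev (ι φ) y := by
    intro y hy hor
    obtain ⟨e, he, he1⟩ := exists_beta H hy
    have h1 : 1 < e φ := by
      apply hφ2
      rcases hor with h2 | h2
      · left
        exact ⟨he, fun i => by
          rw [he1]
          change ev (ι (m i)) y / _ = 0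
          rw [h2, zero_div]⟩
      · exact Or.inr ⟨y, h2, he1⟩
    rw [he1] at h1
    exact (one_lt_div hy).mp h1
  have hφn : ∀ y, 0 ≤ ev (ι φ) y := Ln_of_E1 H fun e he => (hφ1 e (E1_sub H he)).le
  -- the function `g = C0 (h - φ)`
  let g : K := C0 • (h - φ)
  have hg : ∀ y, ev (ι g) y = C0 * (ev (ι h) y - ev (ι φ) y) := fun y => by
    change ev (ι (C0 • (h - φ))) y = _
    rw [map_smul, map_sub, map_smul, map_sub]
    rfl
  have hgE : Even {y | 0 < ev (ι g) y} := by
    refine (hLN g).resolve_right fun h1 => hQ (h1.mono fun y hy => ?_)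
    change ev (ι g) y < 0
    rw [hg]
    exact mul_neg_of_pos_of_neg hC0 (by linarith [hT y (hQY y hy).1 (Or.inr hy)])
  -- the functions `u.m - C0 φ`
  let G : EuclideanSpace ℝ (Fin j) → K := fun u => (∑ i, u i • m i) - C0 • φ
  have hG : ∀ u y, ev (ι (G u)) y = (∑ i, u i * ev (ι (m i)) y) - C0 * ev (ι φ) y := fun u y => by
    change ev (ι ((∑ i, u i • m i) - C0 • φ)) y = _
    rw [map_sub, map_sub, map_sum, map_sum, map_smul, map_smul, Pi.sub_apply, Finset.sum_apply]
    congr 1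
    apply Finset.sum_congr rfl
    intro i _
    rw [map_smul, map_smul]
    rfl
  have hGg : ∀ u ∈ Metric.sphere (0 : EuclideanSpace ℝ (Fin j)) 1, ∀ y,
      ev (ι (G u)) y ≤ ev (ι g) y := by
    intro u hu y
    rw [hG, hg]
    have := hC0' u (by rwa [mem_sphere_zero_iff_norm] at hu) y
    linarith
  obtain ⟨η, hη, hη'⟩ : ∃ η : ℝ, 0 < η ∧
      ∀ u ∈ Metric.sphere (0 : EuclideanSpace ℝ (Fin j)) 1, ∃ y ∈ (univ : Set RP3),
        η ≤ ev (ι (G u)) y := by
    refine fill_cmp (isCompact_sphere _ _) (fun (u : EuclideanSpace ℝ (Fin j)) y =>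
      ev (ι (G u)) y) (fun y _ => ?_) fun u hu => ?_
    · simp only [hG]
      fun_prop
    · by_contra hc
      push Not at hc
      obtain ⟨e, he, h1⟩ := hδ' u hu
      have h2 : -G u ∈ Ln (ev.comp ι) := fun y => by
        have h3 := hc y (mem_univ y)
        change 0 ≤ ev (ι (-G u)) y
        rw [map_neg, map_neg, Pi.neg_apply]
        linarith
      have h3 := (hY.ext.subset he).1 _ h2
      have h4 : e (-G u) = C0 * e φ - ∑ i, u i * e (m i) := by
        change e (-((∑ i, u i • m i) - C0 • φ)) = _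
        rw [map_neg, map_sub, map_sum, map_smul, smul_eq_mul]
        simp only [map_smul, smul_eq_mul]
        ring
      rw [h4] at h3
      have h5 := hφ3 e he
      have h6 : C0 * e φ < C0 * (δ / (2 * C0)) := mul_lt_mul_of_pos_left h5 hC0
      have h7 : C0 * (δ / (2 * C0)) = δ / 2 := by
        field_simp
      rw [h7] at h6
      linarith
  -- a unit vector
  have hu0 : (EuclideanSpace.single (⟨0, hj⟩ : Fin j) (1 : ℝ)) ∈
      Metric.sphere (0 : EuclideanSpace ℝ (Fin j)) 1 := by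
    rw [mem_sphere_zero_iff_norm]
    simp
  -- the data of the filling argument
  have hin : ∀ (u : EuclideanSpace ℝ (Fin j)) (y : RP3),
      inner ℝ u (WithLp.toLp 2 (fun i => ev (ι (m i)) y) : EuclideanSpace ℝ (Fin j)) =
        ∑ i, u i * ev (ι (m i)) y := by
    intro u y
    rw [PiLp.inner_apply]
    apply Finset.sum_congr rfl
    intro i _
    simp [mul_comm]
  have hcc : ∀ k : W, ContinuousOn (fun x : E4 => ev k (pj x)) Sp := fun k =>
    (hs.cont k).comp_continuousOn pj_cont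
  refine hFil j (fun x => WithLp.toLp 2 (fun i => ev (ι (m i)) (pj x)))
    (fun x => C0 * ev (ι φ) (pj x)) (fun x => ev (ι g) (pj x)) η hj ?_
  exact {
    mc := by
      refine (PiLp.continuous_toLp 2 _).comp_continuousOn ?_
      exact continuousOn_pi.mpr fun i => hcc _
    pc := continuousOn_const.mul (hcc _)
    kc := hcc _
    me := fun x => by simp only [fill_pj]
    pe := fun x => by simp only [fill_pj]
    ke := fun x => by simp only [fill_pj]
    nn := fun x _ => mul_nonneg hC0.le (hφn _)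
    eta := hη
    ine := fun u hu x _ => by
      rw [hin, ← hG]
      exact hGg u hu _
    mz := by
      intro x hx hk h0
      have h1 : 0 < ev (ι g) (pj x) := hη.trans_le hk
      have h2 : 0 < ev (ι h) (pj x) := H.posh (k := g) (y := pj x) h1.ne'
      have h3 := hT (pj x) h2 (Or.inl fun i => by
        have := congrArg (fun v : EuclideanSpace ℝ (Fin j) => v i) h0
        simpa using this)
      rw [hg] at h1
      have h4 : 0 < ev (ι h) (pj x) - ev (ι φ) (pj x) := by
        by_contra h5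
        exact absurd h1 (not_lt.mpr (mul_nonpos_of_nonneg_of_nonpos hC0.le (not_lt.mp h5)))
      linarith
    aA := by
      obtain ⟨y, _, h1⟩ := hη' _ hu0
      exact fill_acy hHf hGen hs (ι g) hη hgE ⟨y, h1.trans (hGg _ hu0 y)⟩
    aI := by
      intro u hu
      obtain ⟨y, _, h1⟩ := hη' u hu
      have h2 := fill_acy hHf hGen hs (ι (G u)) hη (hgE.mono fun y hy =>
        lt_of_lt_of_le hy (hGg u hu y)) ⟨y, h1⟩
      have h3 : {x | x ∈ Sp ∧ η ≤ inner ℝ u (WithLp.toLp 2 (fun i => ev (ι (m i)) (pj x)) :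
          EuclideanSpace ℝ (Fin j)) - C0 * ev (ι φ) (pj x)} = up {y | η ≤ ev (ι (G u)) y} := by
        ext x
        change x ∈ Sp ∧ _ ↔ x ∈ Sp ∧ _
        rw [hin, ← hG]
        rfl
      rw [h3]
      exact h2 }

end T4b

end C32
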