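import Pool.Agent.Lib.MP_7cdc3e_gt.C.T4b.Spec

/-!
# MP_7cdc3e_gt, C32, T4b: even closed sets all of whose classes are powers of `a` are acyclic
-/

set_option autoImplicit false

open Set AS TightRP TightRP.C3

namespace C32

namespace T4b

private theorem hfE_ap_zero {X : Set E4} (h0 : (0 : E4) ∉ X) : ap 0 X h0 = one (Pm E4) X := by
  unfold ap one
  rw [cl_eq_cl]
  refine Bnd_of_Z0 (Iv.add (apc_iv 0) (one_mem (Pm E4) X).1) ((Z0.zero _ _).congr fun l hl hX => ?_)
  obtain ⟨x, rfl⟩ := List.length_eq_one_iff.mp hl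
  have h1 : (0 : E4) ∉ [x] := by
    intro h
    rw [List.mem_singleton] at h
    exact h0 (h ▸ hX x (by simp))
  have h2 : apc 0 [x] = pr [x] := apc_pos rfl h1
  rw [Pi.add_apply, h2]
  change (0 : ZMod 2) = 1 + 1
  decide

theorem tHfE (hxo : T0.XOne) (hxp : T0.XPow) : S_HfE := by
  intro A hA hne hG hE
  have h0 : (0 : E4) ∉ up A := zero_notMem_up A
  have hneU : (up A).Nonempty := by
    obtain ⟨z, hz⟩ := hne
    obtain ⟨x, hx, hxz⟩ := pj_surj z
    exact ⟨x, hx, by rw [hxz]; exact hz⟩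
  refine ⟨fun x => ?_, (okN2 E4 (Pm E4) (up A)).2 hneU, fun n x => ?_⟩
  · have h := hG h0 0 x
    rwa [hfE_ap_zero] at h
  · rcases hG h0 (n + 1) x with h | h
    · exact h
    · rw [h]
      exact hxp A 1 (n + 1) (by omega) ((hxo A hA).2 hE)

end T4b

end C32
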