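import Pool.Agent.Lib.MP_7cdc3e_gt.C.T4b.Spec

/-!
# MP_7cdc3e_gt, C32, T4b: the system of a face
-/

set_option autoImplicit false

open Set AS TightRP TightRP.C3

namespace C32

namespace T4b

/-- the elements of the span of a face are differences -/
private theorem ksz_diff {ev : W →ₗ[ℝ] (RP3 → ℝ)} {Φ : Set W} (hΦ : IsFace ev Φ) {x : W}
    (hx : x ∈ Submodule.span ℝ Φ) : ∃ a ∈ Φ, ∃ b ∈ Φ, x = a - b := by
  induction hx using Submodule.span_induction with
  | mem x hx => exact ⟨x, hx, 0, hΦ.zero, (sub_zero x).symm⟩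
  | zero => exact ⟨0, hΦ.zero, 0, hΦ.zero, (sub_zero 0).symm⟩
  | add x y _ _ h1 h2 =>
    obtain ⟨a, ha, b, hb, rfl⟩ := h1
    obtain ⟨a', ha', b', hb', rfl⟩ := h2
    exact ⟨a + a', hΦ.add _ ha _ ha', b + b', hΦ.add _ hb _ hb', by abel⟩
  | smul r x _ h1 =>
    obtain ⟨a, ha, b, hb, rfl⟩ := h1
    rcases le_total 0 r with hr | hr
    · exact ⟨r • a, hΦ.smul r hr a ha, r • b, hΦ.smul r hr b hb, smul_sub r a b⟩
    · refine ⟨(-r) • b, hΦ.smul (-r) (by linarith) b hb, (-r) • a, hΦ.smul (-r) (by linarith) a ha, ?_⟩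
      rw [smul_sub, neg_smul, neg_smul]
      abel

theorem tKSz (hp : T0.XPre) : S_KSz := by
  rintro F _ ev hev Φ hΦ ⟨g, hg, hg0⟩ h hh
  refine ⟨⟨fun k => hev.cont k, fun k => hp F ev hev k, fun y => hΦ.sub hh.1 y, ?_, ?_⟩, ?_⟩
  · by_contra hc
    push Not at hc
    apply hg0
    apply hev.inj
    rw [map_zero]
    funext y
    obtain ⟨t, ht, h2⟩ := hh.2 g hg
    have h3 := hΦ.sub h2 y
    rw [map_sub, map_smul, Pi.sub_apply, Pi.smul_apply, smul_eq_mul] at h3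
    have h4 : ev (h : W) y ≤ 0 := hc y
    have h5 := hΦ.sub hg y
    have h6 : t * ev g y ≤ 0 := by linarith
    exact (mul_eq_zero.mp (le_antisymm h6 (mul_nonneg ht.le h5))).resolve_left ht.ne'
  · intro k
    obtain ⟨a, ha, b, hb, hk⟩ := ksz_diff hΦ k.2
    obtain ⟨t, ht, h2⟩ := hh.2 a ha
    refine ⟨t⁻¹, fun y => ?_⟩
    have h3 := hΦ.sub h2 y
    rw [map_sub, map_smul, Pi.sub_apply, Pi.smul_apply, smul_eq_mul] at h3
    have h4 := hΦ.sub hb y
    have h5 : ev (k : W) y = ev a y - ev b y := by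
      rw [hk, map_sub, Pi.sub_apply]
    change ev (k : W) y ≤ t⁻¹ * ev (h : W) y
    have h6 : ev a y ≤ t⁻¹ * ev (h : W) y := by
      rw [inv_mul_eq_div, le_div_iff₀ ht]
      linarith
    linarith
  · intro l
    constructor
    · intro hl
      obtain ⟨a, ha, b, hb, hk⟩ := ksz_diff hΦ l.2
      refine hΦ.ext _ (fun y => hl y) b (hΦ.sub hb) ?_
      rw [hk, sub_add_cancel]
      exact ha
    · exact fun hl y => hΦ.sub hl y

end T4b

end C32
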