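import Pool.Agent.Lib.MP_7cdc3e_gt.C.T4b.Spec

/-!
# MP_7cdc3e_gt, C32, T4b: relative interior points of faces
-/

set_option autoImplicit false

open Set AS TightRP TightRP.C3

namespace C32

namespace T4b

theorem tLrx (h1 : S_RI) : S_Lrx := by
  intro ev Φ hΦ
  have hcv : Convex ℝ Φ := by
    rintro x hx y hy a b ha hb _
    exact hΦ.add _ (hΦ.smul a ha x hx) _ (hΦ.smul b hb y hy)
  refine ⟨?_, fun h hh => ?_⟩
  · obtain ⟨h, hh, hh'⟩ := (h1 W Φ hcv).1 ⟨0, hΦ.zero⟩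
    refine ⟨h, hh, fun g hg => ?_⟩
    obtain ⟨t, ht, h2⟩ := hh' (h + g) (hΦ.add _ hh _ hg)
    refine ⟨t, ht, ?_⟩
    rwa [add_sub_cancel_left] at h2
  · have key : ∀ g ∈ Φ, Zr ev h ⊆ Zr ev g := by
      intro g hg x hx
      obtain ⟨t, ht, h2⟩ := hh.2 g hg
      have h3 := hΦ.sub h2 x
      rw [map_sub, map_smul, Pi.sub_apply, Pi.smul_apply, smul_eq_mul,
        show ev h x = 0 from hx, zero_sub] at h3
      have h4 := hΦ.sub hg x
      have h5 : t * ev g x ≤ 0 := by linarith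
      have h6 : 0 ≤ t * ev g x := mul_nonneg ht.le h4
      exact (mul_eq_zero.mp (le_antisymm h5 h6)).resolve_left ht.ne'
    refine ⟨Subset.antisymm (fun x hx g hg => key g hg hx) (fun x hx => hx h hh.1), ?_⟩
    rintro ⟨g, hg, hE⟩
    exact hE.mono (key g hg)

end T4b

end C32
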