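import Pool.Agent.Lib.MP_7cdc3e_gt.C.T4b.Spec

/-!
# MP_7cdc3e_gt, C32, T4b, NSph: spheres are not acyclic
-/

set_option autoImplicit false

open Set AS TightRP TightRP.C3

namespace C32

namespace T4b

theorem tNSph : S_NSph := by
  intro j hj hA
  rcases Nat.lt_or_ge j 2 with h | h
  · obtain rfl : j = 1 := by omega
    obtain ⟨e, he, hSU⟩ := P33.SU_line (⊤ : Submodule ℝ (EuclideanSpace ℝ (Fin 1)))
      (by rw [finrank_top, finrank_euclideanSpace_fin])
    have h1 : Metric.sphere (0 : EuclideanSpace ℝ (Fin 1)) 1 = {e, -e} := by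
      rw [← hSU]
      ext x
      simp [P33.SU]
    rw [h1] at hA
    obtain ⟨χ, hχ0, hχ1, _⟩ := P33.two_pts e (-e) he
    rcases hA.1 χ with h2 | h2
    · exact hχ0 h2
    · exact hχ1 h2
  · obtain ⟨n, rfl⟩ : ∃ n, j = n + 2 := ⟨j - 2, by omega⟩
    obtain ⟨s, hs⟩ := P33.sph_bas (V := EuclideanSpace ℝ (Fin (n + 2))) n
      (finrank_euclideanSpace_fin)
    exact hs.2.2.2.1 (hA.2.2 n s)

end T4b

end C32
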