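import Pool.Agent.Lib.MP_7cdc3e_gt.C.T4b.Spec

/-!
# MP_7cdc3e_gt, C32, T4b: relative interior points (`S_RI`)
-/

set_option autoImplicit false

open Set AS TightRP TightRP.C3

namespace C32

namespace T4b

section RI

variable {E : Type} [NormedAddCommGroup E] [NormedSpace ℝ E]

private theorem RI_add {Q : Set E} (hc : Convex ℝ Q) {p v w : E}
    (hv : ∃ t : ℝ, 0 < t ∧ p + t • v ∈ Q) (hw : ∃ t : ℝ, 0 < t ∧ p + t • w ∈ Q) :
    ∃ t : ℝ, 0 < t ∧ p + t • (v + w) ∈ Q := by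
  obtain ⟨t, ht, h1⟩ := hv
  obtain ⟨s, hs, h2⟩ := hw
  have hts : 0 < t + s := add_pos ht hs
  refine ⟨t * s / (t + s), by positivity, ?_⟩
  have h3 := hc h1 h2 (a := s / (t + s)) (b := t / (t + s)) (by positivity) (by positivity)
    (by field_simp; ring)
  convert h3 using 1
  have e1 : s / (t + s) * t = t * s / (t + s) := by ring
  have e2 : t / (t + s) * s = t * s / (t + s) := by ring
  have e3 : s / (t + s) + t / (t + s) = 1 := by field_simp; ring
  calc p + (t * s / (t + s)) • (v + w)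
      = (s / (t + s) + t / (t + s)) • p + ((s / (t + s) * t) • v + (t / (t + s) * s) • w) := by
        rw [e1, e2, e3]; module
    _ = _ := by module

private theorem RI_smul {Q : Set E} {p v : E} {a : ℝ} (ha : 0 < a)
    (hv : ∃ t : ℝ, 0 < t ∧ p + t • v ∈ Q) : ∃ t : ℝ, 0 < t ∧ p + t • (a • v) ∈ Q := by
  obtain ⟨t, ht, h1⟩ := hv
  refine ⟨t / a, by positivity, ?_⟩
  rwa [smul_smul, div_mul_cancel₀ _ ha.ne']

private theorem RI_span {Q : Set E} (hc : Convex ℝ Q) {p : E} (hp : p ∈ RInt Q) {v : E}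
    (hv : v ∈ vectorSpan ℝ Q) :
    (∃ t : ℝ, 0 < t ∧ p + t • v ∈ Q) ∧ ∃ t : ℝ, 0 < t ∧ p + t • (-v) ∈ Q := by
  rw [vectorSpan_eq_span_vsub_set_right ℝ hp.1] at hv
  induction hv using Submodule.span_induction with
  | mem v h =>
    obtain ⟨y, hy, rfl⟩ := h
    refine ⟨⟨1, one_pos, by simpa using hy⟩, ?_⟩
    obtain ⟨t, ht, h1⟩ := hp.2 y hy
    refine ⟨t, ht, ?_⟩
    rw [smul_neg, ← sub_eq_add_neg]
    exact h1
  | zero => exact ⟨⟨1, one_pos, by simpa using hp.1⟩, 1, one_pos, by simpa using hp.1⟩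
  | add v w _ _ hv hw =>
    refine ⟨RI_add hc hv.1 hw.1, ?_⟩
    rw [neg_add]
    exact RI_add hc hv.2 hw.2
  | smul a v _ hv =>
    rcases lt_trichotomy a 0 with ha | ha | ha
    · have e1 : a • v = (-a) • (-v) := by module
      have e2 : -(a • v) = (-a) • v := by module
      rw [e2, e1]
      exact ⟨RI_smul (by linarith) hv.2, RI_smul (by linarith) hv.1⟩
    · subst ha
      exact ⟨⟨1, one_pos, by simpa using hp.1⟩, 1, one_pos, by simpa using hp.1⟩
    · have e2 : -(a • v) = a • (-v) := by module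
      rw [e2]
      exact ⟨RI_smul ha hv.1, RI_smul ha hv.2⟩

end RI

theorem tRI : S_RI := by
  intro E _ _ _ Q hc
  have h1 : Q.Nonempty → (RInt Q).Nonempty := by
    intro hne
    obtain ⟨p, hp, hN⟩ := P33.exists_center hc hne
    refine ⟨p, hp, fun y hy => ?_⟩
    have hf : Continuous fun t : ℝ => (-t) • (⟨y - p, vsub_mem_vectorSpan ℝ hy hp⟩ : vectorSpan ℝ Q) := by
      fun_prop
    have hN' : (fun t : ℝ => (-t) • (⟨y - p, vsub_mem_vectorSpan ℝ hy hp⟩ : vectorSpan ℝ Q)) ⁻¹'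
        {v : vectorSpan ℝ Q | p + (v : E) ∈ Q} ∈ nhds (0 : ℝ) := by
      refine hf.continuousAt.preimage_mem_nhds ?_
      simpa using hN
    obtain ⟨ε, hε, hb⟩ := Metric.mem_nhds_iff.1 hN'
    refine ⟨ε / 2, by linarith, ?_⟩
    have h2 : ε / 2 ∈ Metric.ball (0 : ℝ) ε := by
      rw [Metric.mem_ball, dist_zero_right, Real.norm_eq_abs, abs_of_pos (by linarith)]
      linarith
    have h3 : p + (-(ε / 2)) • (y - p) ∈ Q := hb h2
    rwa [neg_smul, ← sub_eq_add_neg] at h3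
  refine ⟨h1, fun p hp v hv => (RI_span hc hp hv).1, fun y hy => ?_⟩
  obtain ⟨p, hp⟩ := h1 ⟨y, hy⟩
  have hf : Continuous fun t : ℝ => (1 - t) • y + t • p := by fun_prop
  have h0 : (0 : ℝ) ∈ closure (Ioc (0 : ℝ) 1) := by
    rw [closure_Ioc (by norm_num)]
    exact ⟨le_rfl, zero_le_one⟩
  have h2 := map_mem_closure hf h0 (t := RInt Q) fun t ht => by
    have hxQ : (1 - t) • y + t • p ∈ Q := hc hy hp.1 (by linarith [ht.2]) ht.1.le (by ring)
    refine ⟨hxQ, fun y' hy' => ?_⟩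
    obtain ⟨s, hs, h3⟩ := (RI_span hc hp (vsub_mem_vectorSpan ℝ hxQ hy')).1
    refine ⟨t * s, mul_pos ht.1 hs, ?_⟩
    have h4 := hc hy h3 (a := 1 - t) (b := t) (by linarith [ht.2]) ht.1.le (by ring)
    convert h4 using 1
    simp only [vsub_eq_sub]
    module
  simpa using h2

end T4b

end C32
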