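import Pool.Agent.Lib.MP_7cdc3e_gt.C.T4b.Spec

/-!
# MP_7cdc3e_gt, C32, T4b, Sup: an element of the cone which is not an order unit
-/

set_option autoImplicit false

open Set AS TightRP TightRP.C3

namespace C32

namespace T4b

theorem tSup : S_Sup := by
  intro M _ K _ _ _ ev h H l hl hno
  by_contra hcon
  push Not at hcon
  obtain ⟨y, hy⟩ := H.pos
  obtain ⟨e, he, _⟩ := exists_beta H hy
  obtain ⟨e₀, he₀, hmin⟩ := (Bs_compact H).exists_isMinOn ⟨e, E1_sub H he⟩
    (continuous_eval l).continuousOn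
  have hc : 0 < e₀ l := lt_of_le_of_ne (he₀.1 l hl) (hcon e₀ he₀).symm
  refine hno ⟨(e₀ l)⁻¹, fun y => ?_⟩
  have h1 : l - e₀ l • h ∈ Ln ev := Ln_of_E1 H fun e he => by
    rw [map_sub, map_smul, (E1_sub H he).2, smul_eq_mul, mul_one]
    have h2 : e₀ l ≤ e l := hmin (E1_sub H he)
    linarith
  have h2 := h1 y
  rw [map_sub, map_smul, Pi.sub_apply, Pi.smul_apply, smul_eq_mul] at h2
  rw [inv_mul_eq_div, le_div_iff₀ hc]
  linarith

end T4b

end C32
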