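import Pool.Agent.Lib.MP_7cdc3e_gt.C.T4b.Spec

/-!
# MP_7cdc3e_gt, C32, T4b: caps which vanish on a face
-/

set_option autoImplicit false

open Set AS TightRP TightRP.C3

namespace C32

namespace T4b

theorem tCapZ (h1 : S_RI) : S_CapZ := by
  intro M _ K _ _ _ ev h H Y T hY hT hTB hTY
  have : ProperSpace (K →L[ℝ] ℝ) := FiniteDimensional.proper_real _
  obtain ⟨hri1, hri2, -⟩ := h1 (K →L[ℝ] ℝ) Y hY.cvx
  obtain ⟨p, hp⟩ := hri1 hY.ne
  have hpY : p ∈ Y := hp.1
  -- points of the base in the affine span are in the face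
  have hspan : ∀ x ∈ Bs ev h, x ∈ affineSpan ℝ Y → x ∈ Y := by
    intro x hx hxs
    have hv : x - p ∈ vectorSpan ℝ Y := by
      have h2 := AffineSubspace.vsub_mem_direction hxs (subset_affineSpan ℝ Y hpY)
      rwa [direction_affineSpan] at h2
    obtain ⟨t, ht, htY⟩ := hri2 p hp (-(x - p)) (Submodule.neg_mem _ hv)
    have hq : p + t • (-(x - p)) ∈ Bs ev h := hY.ext.subset htY
    refine hY.ext.left_mem_of_mem_openSegment hx hq hpY ?_
    refine ⟨t / (1 + t), 1 / (1 + t), by positivity, by positivity, by field_simp; ring, ?_⟩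
    have h3 : (1 + t) ≠ 0 := by positivity
    have h4 : (t / (1 + t)) • x + (1 / (1 + t)) • (p + t • (-(x - p))) =
        ((1 + t)⁻¹ * (1 + t)) • p := by
      have h5 : t / (1 + t) = (1 + t)⁻¹ * t := by field_simp
      have h6 : 1 / (1 + t) = (1 + t)⁻¹ := one_div _
      rw [h5, h6]
      module
    rw [h4, inv_mul_cancel₀ h3, one_smul]
  -- separation
  have hcA : IsCompact (convexHull ℝ T) := compact_hull hT
  have hd : Disjoint (convexHull ℝ T) (affineSpan ℝ Y : Set (K →L[ℝ] ℝ)) := by
    rw [Set.disjoint_left]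
    have hsub : convexHull ℝ T ⊆ {z | z ∈ Bs ev h ∧ z ∉ Y} := by
      refine convexHull_min (fun z hz => ⟨hTB hz, fun hzY => ?_⟩) ?_
      · have h7 : z ∈ T ∩ Y := ⟨hz, hzY⟩
        rw [hTY] at h7
        exact h7
      · rw [convex_iff_openSegment_subset]
        rintro x ⟨hx, hxD⟩ y ⟨hy, _⟩ z hz
        exact ⟨Bs_convex.openSegment_subset hx hy hz,
          fun hzD => hxD (hY.ext.left_mem_of_mem_openSegment hx hy hzD hz)⟩
    exact fun z hz hzs => (hsub hz).2 (hspan z (hsub hz).1 hzs)
  obtain ⟨f, u, v, h8, h9, h10⟩ := geometric_hahn_banach_compact_closed (convex_convexHull ℝ T) hcA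
    (affineSpan ℝ Y).convex (affineSpan ℝ Y).closed_of_finiteDimensional hd
  obtain ⟨k, hk⟩ := dual_eval f
  -- the functional is constant on the affine span
  have hconst : ∀ e ∈ Y, f e = f p := by
    intro e he
    by_contra hne
    have hes : e ∈ affineSpan ℝ Y := subset_affineSpan ℝ Y he
    have hps : p ∈ affineSpan ℝ Y := subset_affineSpan ℝ Y hpY
    have h11 : ∀ t : ℝ, v < f p + t * (f e - f p) := by
      intro t
      have h12 := h10 _ (AffineMap.lineMap_mem t hps hes)
      rw [AffineMap.lineMap_apply_module'] at h12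
      rw [map_add, map_smul, map_sub, smul_eq_mul] at h12
      linarith
    have h13 : f e - f p ≠ 0 := sub_ne_zero.2 hne
    have h14 := h11 ((v - f p) / (f e - f p))
    rw [div_mul_cancel₀ _ h13] at h14
    linarith
  refine ⟨(f p) • h - k, fun e he => ?_, fun e he => ?_⟩
  · rw [map_sub, map_smul, (hY.ext.subset he).2, smul_eq_mul, mul_one, ← hk, hconst e he, sub_self]
  · have h15 := h8 e (subset_convexHull ℝ _ he)
    have h16 := h10 p (subset_affineSpan ℝ Y hpY)
    rw [map_sub, map_smul, (hTB he).2, smul_eq_mul, mul_one, ← hk]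
    linarith

end T4b

end C32
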