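import Pool.Agent.Lib.MP_7cdc3e_gt.C.T4b.Spec

/-!
# MP_7cdc3e_gt, T4b: `Nf ev z` is a face
-/

set_option autoImplicit false

open Module TightRP TightRP.C3

namespace C32

namespace T4b

theorem tNfF : S_NfF := by
  intro ev z
  exact {
    sub := fun g hg => hg.1
    zero := ⟨fun x => by simp, by simp⟩
    add := fun g hg h hh => ⟨fun x => by
      rw [map_add, Pi.add_apply]
      exact add_nonneg (hg.1 x) (hh.1 x), by
      rw [map_add, Pi.add_apply, hg.2, hh.2, add_zero]⟩
    smul := fun t ht g hg => ⟨fun x => by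
      rw [map_smul, Pi.smul_apply, smul_eq_mul]
      exact mul_nonneg ht (hg.1 x), by
      rw [map_smul, Pi.smul_apply, hg.2, smul_zero]⟩
    ext := fun g hg h hh hgh => ⟨hg, by
      have h1 := hgh.2
      rw [map_add, Pi.add_apply] at h1
      have h2 := hg z
      have h3 := hh z
      linarith⟩ }

end T4b

end C32
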