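import Pool.Agent.Lib.MP_7cdc3e_gt.C.T4b.A11
import Pool.Agent.Lib.MP_7cdc3e_gt.C.T4b.A2
import Pool.Agent.Lib.MP_7cdc3e_gt.C.T4b.A7
import Pool.Agent.Lib.MP_7cdc3e_gt.C.T4b.A7T
import Pool.Agent.Lib.MP_7cdc3e_gt.C.T4b.B3
import Pool.Agent.Lib.MP_7cdc3e_gt.C.T4b.Bet
import Pool.Agent.Lib.MP_7cdc3e_gt.C.T4b.Cap
import Pool.Agent.Lib.MP_7cdc3e_gt.C.T4b.CapZ
import Pool.Agent.Lib.MP_7cdc3e_gt.C.T4b.Cov
import Pool.Agent.Lib.MP_7cdc3e_gt.C.T4b.Crd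
import Pool.Agent.Lib.MP_7cdc3e_gt.C.T4b.EvN
import Pool.Agent.Lib.MP_7cdc3e_gt.C.T4b.FilT
import Pool.Agent.Lib.MP_7cdc3e_gt.C.T4b.Fill
import Pool.Agent.Lib.MP_7cdc3e_gt.C.T4b.HfE
import Pool.Agent.Lib.MP_7cdc3e_gt.C.T4b.KSz
import Pool.Agent.Lib.MP_7cdc3e_gt.C.T4b.Lrx
import Pool.Agent.Lib.MP_7cdc3e_gt.C.T4b.NSph
import Pool.Agent.Lib.MP_7cdc3e_gt.C.T4b.NfF
import Pool.Agent.Lib.MP_7cdc3e_gt.C.T4b.RI
import Pool.Agent.Lib.MP_7cdc3e_gt.C.T4b.Sup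
import Pool.Agent.Lib.AS.AllL
import Pool.Agent.Lib.MP_7cdc3e_gt.T0.All

/-!
# MP_7cdc3e_gt, T4b: the statements of `C/T4b/Spec` without hypotheses
-/

set_option autoImplicit false

open AS TightRP

namespace C32

namespace T4b

theorem okRI : S_RI := tRI
theorem okCap : S_Cap := tCap
theorem okCapZ : S_CapZ := tCapZ okRI
theorem okCrd : S_Crd := tCrd okRI
theorem okA11 : S_A11 := tA11
theorem okSup : S_Sup := tSup
theorem okBet : S_Bet := tBet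
theorem okNSph : S_NSph := tNSph
theorem okFilT : S_FilT := tFilT okW1a okW1b okNSph
theorem okHfE : S_HfE := tHfE T0.oxOne T0.oxPow
theorem okFill : S_Fill := tFill okRI okCap okCrd okBet okFilT okHfE T0.oxGen
theorem okEvN : S_EvN := tEvN
theorem okCov : S_Cov := tCov T0.oxOne R3.okRP
theorem okA2 : S_A2 := tA2 okEvN okCov
theorem okB3 : S_B3 := tB3 T0.oxGen T0.oxTop T0.oxEv T0.oxPow
theorem okA7T : S_A7T := tA7T okW1b okW3a okB3 R3.okRP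
theorem okA7 : S_A7 := tA7 okA7T
theorem okLrx : S_Lrx := tLrx okRI
theorem okKSz : S_KSz := tKSz T0.oxPre
theorem okNfF : S_NfF := tNfF

end T4b

end C32
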